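import Pool.Agent.H80.TO.K4

open MeasureTheory Filter Topology

namespace Pool.Agent.H80.TO
open Pool.Agent.H84.TO

theorem asy (hGRM : T_GRM) (hK3 : T_K3) (hK4 : T_K4) (hTR2 : T_TR2) (hTR3 : T_TR3)
    (hTR4 : T_TR4) (hDET : T_DET) : T_ASY := by
  intro ℓ hℓ
  obtain ⟨-, -, hpsd, -⟩ := hGRM ℓ hℓ
  obtain ⟨-, hk⟩ := hK3 ℓ (by omega)
  have hk4 := hK4 ℓ (by omega)
  obtain ⟨C, hC⟩ := hTR2 ℓ hℓ
  have hlnn : (0 : ℝ) ≤ ℓ := by positivity
  set τ : ℕ → ℝ := fun m => km ℓ m 0 with hτ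
  have hτ0 : ∀ m, 1 ≤ m → 0 ≤ τ m := fun m hm => (hk m hm).2.2.1 0
  have hτb : ∀ m, 1 ≤ m → τ m ≤ ℓ / (4 * Real.sqrt m) := fun m hm => (hk m hm).2.2.2.2.2.2.2
  have htrnn : ∀ n m : ℕ, 0 ≤ ((SS ℓ n) ^ m).trace := fun n m =>
    ((hpsd n).pow m).trace_nonneg
  -- trace bound with absolute value
  have hCb : ∀ m : ℕ, 1 ≤ m → ∀ n : ℕ, 1 ≤ n →
      ((SS ℓ n) ^ (m + 1)).trace ≤ |C| * (ℓ / (4 * Real.sqrt m)) * Real.log (n + 1) := by
    intro m hm n hn
    have hlog : 0 ≤ Real.log ((n : ℝ) + 1) := Real.log_nonneg (by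
      have : (0 : ℝ) ≤ n := by positivity
      linarith)
    calc ((SS ℓ n) ^ (m + 1)).trace ≤ C * km ℓ m 0 * Real.log (n + 1) := hC m hm n hn
      _ ≤ |C| * (ℓ / (4 * Real.sqrt m)) * Real.log (n + 1) := by
        refine mul_le_mul_of_nonneg_right ?_ hlog
        exact mul_le_mul (le_abs_self C) (hτb m hm) (hτ0 m hm) (abs_nonneg C)
  -- traces of powers tend to zero
  have hlim0 : ∀ n : ℕ, 1 ≤ n → Tendsto (fun m : ℕ => ((SS ℓ n) ^ m).trace) atTop (𝓝 0) := by
    intro n hn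
    rw [← tendsto_add_atTop_iff_nat 2]
    have hs : Tendsto (fun m : ℕ => |C| * (ℓ / (4 * Real.sqrt ((m + 1 : ℕ) : ℝ))) *
        Real.log (n + 1)) atTop (𝓝 0) := by
      have h1 : Tendsto (fun m : ℕ => Real.sqrt ((m + 1 : ℕ) : ℝ)) atTop atTop :=
        Real.tendsto_sqrt_atTop.comp
          (tendsto_natCast_atTop_atTop.comp (tendsto_add_atTop_nat 1))
      have h2 : Tendsto (fun m : ℕ => (ℓ : ℝ) / (4 * Real.sqrt ((m + 1 : ℕ) : ℝ))) atTop (𝓝 0) :=
        (h1.const_mul_atTop (by norm_num : (0 : ℝ) < 4)).const_div_atTop _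
      have h3 := (h2.const_mul |C|).mul_const (Real.log (n + 1))
      simpa using h3
    refine squeeze_zero (fun m => htrnn n (m + 2)) (fun m => ?_) hs
    exact hCb (m + 1) (by omega) n hn
  -- the determinant
  have hdet : ∀ n : ℕ, 1 ≤ n →
      ∑' m : ℕ, ((SS ℓ n) ^ (m + 1)).trace / ((m : ℝ) + 1) = -Real.log (1 - SS ℓ n).det :=
    fun n hn => (hDET n (SS ℓ n) (hpsd n) (hlim0 n hn)).2.tsum_eq
  -- logarithm tends to infinity
  have hlogT : Tendsto (fun n : ℕ => Real.log n) atTop atTop :=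
    Real.tendsto_log_atTop.comp tendsto_natCast_atTop_atTop
  -- pointwise limits
  have hpt : ∀ m : ℕ, 1 ≤ m →
      Tendsto (fun n : ℕ => ((SS ℓ n) ^ m).trace / Real.log n) atTop (𝓝 (τ m)) := by
    intro m hm
    obtain ⟨D, hD⟩ := hTR3 ℓ hℓ m hm
    rw [tendsto_order]
    constructor
    · intro a ha
      filter_upwards [hTR4 ℓ hℓ m hm ((τ m - a) / 2) (by linarith), hlogT.eventually_gt_atTop 0]
        with n h1 h2
      rw [lt_div_iff₀ h2]
      refine lt_of_lt_of_le ?_ h1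
      exact mul_lt_mul_of_pos_right (by simp only [hτ] at ha ⊢; linarith) h2
    · intro b hb
      have hlim : Tendsto (fun n : ℕ => τ m + D / Real.log n) atTop (𝓝 (τ m)) := by
        have := (hlogT.const_div_atTop D).const_add (τ m)
        simpa using this
      filter_upwards [(tendsto_order.mp hlim).2 b hb, hlogT.eventually_gt_atTop 0,
        eventually_ge_atTop 1] with n h1 h2 h3
      refine lt_of_le_of_lt ?_ h1
      rw [div_le_iff₀ h2, add_mul, div_mul_cancel₀ _ h2.ne']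
      exact hD n h3
  obtain ⟨D, hD⟩ := hTR3 ℓ hℓ 1 le_rfl
  set f : ℕ → ℕ → ℝ := fun n m => ((SS ℓ n) ^ (m + 1)).trace / Real.log n / ((m : ℝ) + 1) with hf
  set B : ℝ := τ 1 + |D| / Real.log 2 with hB
  have hlog2 : 0 < Real.log 2 := Real.log_pos (by norm_num)
  have hB0 : 0 ≤ B := add_nonneg (hτ0 1 le_rfl) (by positivity)
  have hdc := tendsto_tsum_of_dominated_convergence (𝓕 := atTop) (f := f)
    (g := fun m : ℕ => τ (m + 1) / ((m : ℝ) + 1))
    (bound := fun m : ℕ => (B + |C| * ℓ) * (1 / (Real.sqrt ((m : ℝ) + 1) * ((m : ℝ) + 1))))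
    (summable_three_half.mul_left _) (fun m => (hpt (m + 1) (by omega)).div_const _) ?_
  · have e1 : ∑' m : ℕ, τ (m + 1) / ((m : ℝ) + 1) = 2 * theta ℓ := hk4.tsum_eq
    rw [e1] at hdc
    have h2 := hdc.neg
    have e3 : -2 * theta ℓ = -(2 * theta ℓ) := by ring
    rw [e3]
    refine h2.congr' ?_
    filter_upwards [eventually_ge_atTop 1] with n hn
    have e2 : ∑' m : ℕ, f n m = (-Real.log (1 - SS ℓ n).det) / Real.log n := by
      rw [← hdet n hn, ← tsum_div_const]
      refine tsum_congr fun m => ?_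
      simp only [hf]
      rw [div_right_comm]
    rw [e2]
    ring
  · filter_upwards [eventually_ge_atTop 2] with n hn m
    have hn2 : (2 : ℝ) ≤ n := by exact_mod_cast hn
    have hlogn : Real.log 2 ≤ Real.log n := Real.log_le_log (by norm_num) hn2
    have hlogn0 : 0 < Real.log n := hlog2.trans_le hlogn
    have hm1 : (0 : ℝ) < (m : ℝ) + 1 := by positivity
    have hf0 : 0 ≤ f n m := by
      simp only [hf]
      exact div_nonneg (div_nonneg (htrnn _ _) hlogn0.le) hm1.le
    rw [Real.norm_eq_abs, abs_of_nonneg hf0]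
    have hCl : 0 ≤ |C| * ℓ := by positivity
    rcases Nat.eq_zero_or_pos m with rfl | hm
    · have h1 : ((SS ℓ n) ^ (0 + 1)).trace / Real.log n ≤ B := by
        rw [div_le_iff₀ hlogn0, zero_add]
        refine (hD n (by omega)).trans ?_
        rw [hB, add_mul]
        refine add_le_add le_rfl ?_
        calc D ≤ |D| := le_abs_self D
          _ = |D| / Real.log 2 * Real.log 2 := by field_simp
          _ ≤ |D| / Real.log 2 * Real.log n := by gcongr
      simp only [hf]
      push_cast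
      rw [zero_add, Real.sqrt_one]
      norm_num
      rw [zero_add] at h1
      simp only [pow_one] at h1
      linarith
    · have hmr : (1 : ℝ) ≤ m := by exact_mod_cast hm
      have hlogn1 : Real.log ((n : ℝ) + 1) ≤ 2 * Real.log n := by
        have : Real.log ((n : ℝ) + 1) ≤ Real.log ((n : ℝ) ^ 2) :=
          Real.log_le_log (by positivity) (by nlinarith)
        rwa [Real.log_pow, Nat.cast_ofNat] at this
      have hsq : Real.sqrt ((m : ℝ) + 1) ≤ 2 * Real.sqrt m := by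
        rw [show (2 : ℝ) * Real.sqrt m = Real.sqrt (4 * m) by
          rw [Real.sqrt_mul (by norm_num), show (4 : ℝ) = 2 ^ 2 by norm_num,
            Real.sqrt_sq (by norm_num)]]
        exact Real.sqrt_le_sqrt (by linarith)
      have hsm : 0 < Real.sqrt m := Real.sqrt_pos.mpr (by linarith)
      have hsm1 : 0 < Real.sqrt ((m : ℝ) + 1) := Real.sqrt_pos.mpr (by linarith)
      have h1 : ((SS ℓ n) ^ (m + 1)).trace / Real.log n ≤ |C| * ℓ / Real.sqrt ((m : ℝ) + 1) := by
        rw [div_le_iff₀ hlogn0]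
        refine (hCb m hm n (by omega)).trans ?_
        calc |C| * (ℓ / (4 * Real.sqrt m)) * Real.log (n + 1)
            ≤ |C| * (ℓ / (4 * Real.sqrt m)) * (2 * Real.log n) := by gcongr
          _ = |C| * ℓ / (2 * Real.sqrt m) * Real.log n := by
              field_simp
              ring
          _ ≤ |C| * ℓ / Real.sqrt ((m : ℝ) + 1) * Real.log n := by gcongr
      simp only [hf]
      calc ((SS ℓ n) ^ (m + 1)).trace / Real.log n / ((m : ℝ) + 1)
          ≤ |C| * ℓ / Real.sqrt ((m : ℝ) + 1) / ((m : ℝ) + 1) := by gcongr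
        _ = |C| * ℓ * (1 / (Real.sqrt ((m : ℝ) + 1) * ((m : ℝ) + 1))) := by
            field_simp
        _ ≤ _ := by
            refine mul_le_mul_of_nonneg_right (by linarith) (by positivity)

end Pool.Agent.H80.TO
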