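import Pool.Agent.H84.TO.TargetsH

/-!
Haar measure on the orthogonal group: uniqueness, bi-invariance, existence.
-/

open MeasureTheory Matrix Polynomial Filter Topology
open scoped ENNReal

namespace Pool.Agent.H80.TO
open Pool.Agent.H84.TO

section gen

variable {G : Type*} [Group G] [MeasurableSpace G] [MeasurableMul₂ G] [MeasurableInv G]

theorem left_eq_right (μ ρ : Measure G) [IsProbabilityMeasure μ] [IsProbabilityMeasure ρ]
    [μ.IsMulLeftInvariant] [ρ.IsMulRightInvariant] : μ = ρ := by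
  refine Measure.ext_of_lintegral _ fun f hf => ?_
  have h1 : ∫⁻ x, f x ∂μ = ∫⁻ g, ∫⁻ h, f (g * h) ∂μ ∂ρ := by
    simp_rw [lintegral_mul_left_eq_self f]
    simp
  have h2 : ∫⁻ x, f x ∂ρ = ∫⁻ h, ∫⁻ g, f (g * h) ∂ρ ∂μ := by
    simp_rw [lintegral_mul_right_eq_self f]
    simp
  rw [h1, h2]
  refine lintegral_lintegral_swap ?_
  exact (hf.comp measurable_mul).aemeasurable

theorem left_eq_inv (μ ν : Measure G) [IsProbabilityMeasure μ] [IsProbabilityMeasure ν]
    [μ.IsMulLeftInvariant] [ν.IsMulLeftInvariant] : μ = ν.inv := by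
  haveI : IsProbabilityMeasure ν.inv := by
    unfold Measure.inv
    exact Measure.isProbabilityMeasure_map measurable_inv.aemeasurable
  exact left_eq_right μ ν.inv

theorem bin_gen (μ ν : Measure G) [IsProbabilityMeasure μ] [IsProbabilityMeasure ν]
    [μ.IsMulLeftInvariant] [ν.IsMulLeftInvariant] :
    μ = ν ∧ μ.IsMulRightInvariant ∧ μ.map (fun g => g⁻¹) = μ := by
  have h1 := left_eq_inv μ ν
  have h2 := left_eq_inv ν ν
  have h3 := left_eq_inv μ μ
  refine ⟨h1.trans h2.symm, ?_, ?_⟩
  · rw [h3]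
    infer_instance
  · exact h3.symm

end gen

theorem bin : T_BIN := by
  intro ι _ _ μ ν _ _ _ _
  exact bin_gen μ ν

theorem isCompact_orth (ι : Type) [Fintype ι] [DecidableEq ι] :
    IsCompact ((Matrix.orthogonalGroup ι ℝ : Set (Matrix ι ι ℝ))) := by
  have hcl : IsClosed ((Matrix.orthogonalGroup ι ℝ : Set (Matrix ι ι ℝ))) := by
    have : (Matrix.orthogonalGroup ι ℝ : Set (Matrix ι ι ℝ)) =
        {A : Matrix ι ι ℝ | A * star A = 1} := by
      ext A
      exact Matrix.mem_unitaryGroup_iff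
    rw [this]
    exact isClosed_eq (continuous_id.mul continuous_star) continuous_const
  have hb : Bornology.IsBounded ((Matrix.orthogonalGroup ι ℝ : Set (Matrix ι ι ℝ))) := by
    refine isBounded_iff_forall_norm_le.mpr ⟨1, fun A hA => ?_⟩
    exact entrywise_sup_norm_bound_of_unitary hA
  exact Metric.isCompact_of_isClosed_isBounded hcl hb

theorem hex : T_HEX := by
  intro ι _ _
  haveI : CompactSpace (Matrix.orthogonalGroup ι ℝ) :=
    isCompact_iff_compactSpace.mp (isCompact_orth ι)
  let m : Measure (Matrix.orthogonalGroup ι ℝ) := Measure.haar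
  refine ⟨(m Set.univ)⁻¹ • m, ?_, ?_⟩
  · constructor
    rw [Measure.smul_apply, smul_eq_mul]
    exact ENNReal.inv_mul_cancel (isOpen_univ.measure_ne_zero m Set.univ_nonempty)
      (isCompact_univ.measure_lt_top).ne
  · infer_instance

end Pool.Agent.H80.TO
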