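import Pool.Agent.H84.TO.TargetsT

open MeasureTheory Filter Topology Matrix

namespace Pool.Agent.H80.TO
open Pool.Agent.H84.TO

theorem det : T_DET := by
  intro n S hS hlim
  have hH : S.IsHermitian := hS.isHermitian
  have hspec := hH.spectral_theorem
  have htr : ∀ m : ℕ, (S ^ m).trace = ∑ i, hH.eigenvalues i ^ m := by
    intro m
    conv_lhs => rw [hspec]
    rw [← map_pow, Matrix.diagonal_pow, Unitary.conjStarAlgAut_apply, Matrix.trace_mul_comm,
      ← Matrix.mul_assoc]
    simp
  have hdet : (1 - S).det = ∏ i, (1 - hH.eigenvalues i) := by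
    have h1 := congrArg (Polynomial.eval 1) hH.charpoly_eq
    rw [Matrix.eval_charpoly] at h1
    simpa [Polynomial.eval_prod] using h1
  have hnn : ∀ i, 0 ≤ hH.eigenvalues i := hS.eigenvalues_nonneg
  have hlt : ∀ i, hH.eigenvalues i < 1 := by
    intro i
    by_contra hc
    push_neg at hc
    have h1 : ∀ m : ℕ, (1 : ℝ) ≤ (S ^ m).trace := by
      intro m
      rw [htr]
      calc (1 : ℝ) ≤ hH.eigenvalues i ^ m := one_le_pow₀ hc
        _ ≤ ∑ i, hH.eigenvalues i ^ m :=
          Finset.single_le_sum (f := fun i => hH.eigenvalues i ^ m)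
            (fun j _ => pow_nonneg (hnn j) m) (Finset.mem_univ i)
    have h2 : (1 : ℝ) ≤ 0 := ge_of_tendsto' hlim h1
    linarith
  have hpos : ∀ i ∈ Finset.univ, 0 < 1 - hH.eigenvalues i := by
    intro i _
    linarith [hlt i]
  refine ⟨by rw [hdet]; exact Finset.prod_pos hpos, ?_⟩
  rw [hdet, Real.log_prod (fun i hi => (hpos i hi).ne')]
  have h3 : ∀ i ∈ (Finset.univ : Finset (Fin n)),
      HasSum (fun m : ℕ => hH.eigenvalues i ^ (m + 1) / ((m : ℝ) + 1))
        (-Real.log (1 - hH.eigenvalues i)) := by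
    intro i _
    exact Real.hasSum_pow_div_log_of_abs_lt_one
      (by rw [abs_of_nonneg (hnn i)]; exact hlt i)
  have h4 := hasSum_sum h3
  rw [Finset.sum_neg_distrib] at h4
  convert h4 using 2 with m
  rw [htr, Finset.sum_div]

end Pool.Agent.H80.TO
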