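import Pool.Agent.H84.TO.TargetsT

open MeasureTheory Filter Topology

namespace Pool.Agent.H80.TO
open Pool.Agent.H84.TO

/-- summability of `1 / (sqrt (m+1) (m+1))` -/
theorem summable_three_half : Summable (fun m : ℕ => 1 / (Real.sqrt ((m : ℝ) + 1) * ((m : ℝ) + 1))) := by
  have h := (summable_nat_add_iff (f := fun n : ℕ => 1 / (n : ℝ) ^ (3 / 2 : ℝ)) 1).mpr
    (Real.summable_one_div_nat_rpow.mpr (by norm_num))
  refine h.congr fun m => ?_
  have hm : (0 : ℝ) < (m : ℝ) + 1 := by positivity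
  push_cast
  congr 1
  rw [Real.sqrt_eq_rpow]
  nth_rewrite 3 [← Real.rpow_one ((m : ℝ) + 1)]
  rw [← Real.rpow_add hm]
  norm_num

theorem k4 (hK2 : T_K2) (hK3 : T_K3) : T_K4 := by
  intro ℓ hℓ
  obtain ⟨hcont, hss⟩ := hK2 ℓ hℓ
  obtain ⟨-, h3⟩ := hK3 ℓ hℓ
  have hl : (0 : ℝ) < ℓ := by exact_mod_cast hℓ
  have hle1 : ∀ x, ss ℓ x ≤ 1 := fun x =>
    (hss x).2.1.trans (inv_le_one_of_one_le₀ (by
      have : 0 ≤ 4 * x ^ 2 / (ℓ : ℝ) ^ 2 := by positivity
      linarith))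
  have hlt1 : ∀ x, x ≠ 0 → ss ℓ x < 1 := fun x hx =>
    (hss x).2.1.trans_lt (inv_lt_one_of_one_lt₀ (by
      have : 0 < 4 * x ^ 2 / (ℓ : ℝ) ^ 2 := by positivity
      linarith))
  have hint0 : Integrable (fun x : ℝ => (1 + 4 * x ^ 2 / (ℓ : ℝ) ^ 2)⁻¹) := by
    have h := integrable_inv_one_add_sq.comp_mul_left' (R := (2 / ℓ : ℝ)) (by positivity)
    refine h.congr (Eventually.of_forall fun x => ?_)
    simp only
    congr 2
    field_simp
    ring
  have hint : ∀ m : ℕ, Integrable (fun x => ss ℓ x ^ (m + 1)) := by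
    intro m
    refine hint0.mono' ((hcont.pow _).aestronglyMeasurable) (Eventually.of_forall fun x => ?_)
    rw [Real.norm_eq_abs, abs_of_nonneg (pow_nonneg (hss x).1.le _)]
    calc ss ℓ x ^ (m + 1) ≤ ss ℓ x ^ 1 :=
          pow_le_pow_of_le_one (hss x).1.le (hle1 x) (by omega)
      _ = ss ℓ x := pow_one _
      _ ≤ _ := (hss x).2.1
  set F : ℕ → ℝ → ℝ := fun m x => ss ℓ x ^ (m + 1) / ((m : ℝ) + 1) with hF
  have hFint : ∀ m, Integrable (F m) := fun m => (hint m).div_const _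
  have hFnn : ∀ m x, 0 ≤ F m x := fun m x => by
    have := (hss x).1
    simp only [hF]
    positivity
  have hkm : ∀ m : ℕ, ∫ x, F m x = 2 * Real.pi * (km ℓ (m + 1) 0 / ((m : ℝ) + 1)) := by
    intro m
    simp only [hF]
    rw [integral_div]
    unfold km
    simp only [mul_zero, Real.cos_zero, mul_one]
    field_simp
  have hnorm : ∀ m : ℕ, ∫ x, ‖F m x‖ = ∫ x, F m x := by
    intro m
    refine integral_congr_ae (Eventually.of_forall fun x => ?_)
    simp only
    rw [Real.norm_eq_abs, abs_of_nonneg (hFnn m x)]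
  have hsum : Summable fun m : ℕ => ∫ x, ‖F m x‖ := by
    refine Summable.of_nonneg_of_le (fun m => integral_nonneg fun x => norm_nonneg _)
      (fun m => ?_) ((summable_three_half).mul_left (2 * Real.pi * (ℓ / 4)))
    rw [hnorm, hkm]
    have hk := (h3 (m + 1) (by omega)).2.2.2.2.2.2.2
    push_cast at hk
    have hm : (0 : ℝ) < (m : ℝ) + 1 := by positivity
    calc 2 * Real.pi * (km ℓ (m + 1) 0 / ((m : ℝ) + 1))
        ≤ 2 * Real.pi * ((ℓ / (4 * Real.sqrt ((m : ℝ) + 1))) / ((m : ℝ) + 1)) := by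
          gcongr
      _ = 2 * Real.pi * (ℓ / 4) * (1 / (Real.sqrt ((m : ℝ) + 1) * ((m : ℝ) + 1))) := by
          field_simp
  have hmain := hasSum_integral_of_summable_integral_norm hFint hsum
  have hlog : ∫ x, ∑' m, F m x = ∫ x, -Real.log (1 - ss ℓ x) := by
    refine integral_congr_ae ?_
    have hae : ∀ᵐ x : ℝ, x ≠ 0 := by
      simp [ae_iff]
    filter_upwards [hae] with x hx
    exact (Real.hasSum_pow_div_log_of_abs_lt_one
      (by rw [abs_of_nonneg (hss x).1.le]; exact hlt1 x hx)).tsum_eq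
  have habs : ∫ x, -Real.log (1 - ss ℓ x) = 2 * ∫ x in Set.Ioi (0 : ℝ), -Real.log (1 - ss ℓ x) := by
    rw [← integral_comp_abs (f := fun x => -Real.log (1 - ss ℓ x))]
    refine integral_congr_ae (Eventually.of_forall fun x => ?_)
    simp only
    rcases abs_cases x with ⟨h, _⟩ | ⟨h, _⟩
    · rw [h]
    · rw [h, (hss x).2.2]
  rw [hlog, habs, integral_neg] at hmain
  have h5 := hmain.mul_left (1 / (2 * Real.pi))
  have e1 : (fun m : ℕ => km ℓ (m + 1) 0 / ((m : ℝ) + 1)) =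
      fun m : ℕ => 1 / (2 * Real.pi) * ∫ x, F m x := by
    funext m
    rw [hkm]
    field_simp
  have e2 : 2 * theta ℓ =
      1 / (2 * Real.pi) * (2 * -∫ x in Set.Ioi (0 : ℝ), Real.log (1 - ss ℓ x)) := by
    unfold theta ss
    ring
  rw [e1, e2]
  exact h5

end Pool.Agent.H80.TO
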