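import Pool.Agent.H84.TO.TargetsR

/-!
MacMahon's master theorem for 2x2 matrices.
-/

open Finset PowerSeries

namespace Pool.Agent.H80.TO
open Pool.Agent.H84.TO

/-- `(1 - aX)^{-(i+1)}` -/
noncomputable def PP (a : ℂ) (i : ℕ) : PowerSeries ℂ :=
  PowerSeries.mk fun p => ((p + i).choose i : ℂ) * a ^ p

theorem PP_zero (a : ℂ) : (1 - PowerSeries.C a * X) * PP a 0 = 1 := by
  ext n
  rw [sub_mul, one_mul, map_sub, mul_assoc, PowerSeries.coeff_C_mul]
  cases n with
  | zero => simp [PP]
  | succ n =>
    rw [mul_comm X, PowerSeries.coeff_succ_mul_X]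
    simp [PP, PowerSeries.coeff_one]
    ring

theorem PP_succ (a : ℂ) (i : ℕ) : (1 - PowerSeries.C a * X) * PP a (i + 1) = PP a i := by
  ext n
  rw [sub_mul, one_mul, map_sub, mul_assoc, PowerSeries.coeff_C_mul]
  cases n with
  | zero => simp [PP]
  | succ n =>
    rw [mul_comm X, PowerSeries.coeff_succ_mul_X]
    simp only [PP, PowerSeries.coeff_mk]
    have h : (n + 1 + (i + 1)).choose (i + 1) = (n + 1 + i).choose i +
        (n + (i + 1)).choose (i + 1) := by
      rw [show n + 1 + (i + 1) = (n + 1 + i) + 1 by ring, Nat.choose_succ_succ,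
        show n + (i + 1) = n + 1 + i by ring]
    rw [h]
    push_cast
    ring

theorem FF_eq (a d x : ℂ) (n : ℕ) :
    (((1 - PowerSeries.C a * X) * (1 - PowerSeries.C d * X)) - PowerSeries.C x * X ^ 2) *
      ∑ i ∈ range (n + 1), PowerSeries.C (x ^ i) * (X ^ (2 * i) * (PP a i * PP d i)) =
    1 - PowerSeries.C (x ^ (n + 1)) * (X ^ (2 * (n + 1)) * (PP a n * PP d n)) := by
  induction n with
  | zero =>
    rw [sum_range_one]
    have h1 := PP_zero a
    have h2 := PP_zero d
    simp only [pow_zero, map_one, mul_zero, one_mul, zero_add, pow_one, mul_one]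
    calc (((1 - PowerSeries.C a * X) * (1 - PowerSeries.C d * X)) - PowerSeries.C x * X ^ 2) *
          (PP a 0 * PP d 0)
        = ((1 - PowerSeries.C a * X) * PP a 0) * ((1 - PowerSeries.C d * X) * PP d 0) -
          PowerSeries.C x * (X ^ 2 * (PP a 0 * PP d 0)) := by ring
      _ = _ := by rw [h1, h2]; ring
  | succ n ih =>
    rw [sum_range_succ, mul_add, ih]
    have h1 := PP_succ a n
    have h2 := PP_succ d n
    have h3 : (((1 - PowerSeries.C a * X) * (1 - PowerSeries.C d * X)) -
        PowerSeries.C x * X ^ 2) *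
        (PowerSeries.C (x ^ (n + 1)) * (X ^ (2 * (n + 1)) * (PP a (n + 1) * PP d (n + 1)))) =
        PowerSeries.C (x ^ (n + 1)) * (X ^ (2 * (n + 1)) *
          (((1 - PowerSeries.C a * X) * PP a (n + 1)) *
            ((1 - PowerSeries.C d * X) * PP d (n + 1)))) -
        PowerSeries.C (x ^ (n + 1 + 1)) * (X ^ (2 * (n + 1 + 1)) *
          (PP a (n + 1) * PP d (n + 1))) := by
      rw [pow_succ x (n + 1), map_mul]
      ring
    rw [h3, h1, h2]
    ring

theorem coeff_term (a d : ℂ) (i r : ℕ) :
    PowerSeries.coeff r (X ^ (2 * i) * (PP a i * PP d i)) =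
    ∑ p ∈ range (r + 1), ∑ q ∈ range (r + 1), if p + q + 2 * i = r then
      ((p + i).choose i * (q + i).choose i : ℂ) * a ^ p * d ^ q else 0 := by
  rw [PowerSeries.coeff_X_pow_mul', ← sum_product', ← sum_filter]
  split_ifs with h
  · rw [PowerSeries.coeff_mul]
    have hs : (range (r + 1) ×ˢ range (r + 1)).filter (fun x => x.1 + x.2 + 2 * i = r) =
        antidiagonal (r - 2 * i) := by
      ext ⟨p, q⟩
      simp only [mem_filter, mem_product, mem_range, HasAntidiagonal.mem_antidiagonal]
      omega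
    rw [hs]
    refine sum_congr rfl fun x _ => ?_
    simp only [PP, PowerSeries.coeff_mk]
    ring
  · symm
    refine sum_eq_zero fun x hx => ?_
    exfalso
    simp only [mem_filter] at hx
    omega

theorem mm2 : T_MM2 := by
  intro a b c d h h0 h1 hrec r
  generalize b * c = x at hrec ⊢
  set D : PowerSeries ℂ := ((1 - PowerSeries.C a * X) * (1 - PowerSeries.C d * X)) -
    PowerSeries.C x * X ^ 2 with hD
  set H : PowerSeries ℂ := PowerSeries.mk h with hH
  have hDe : D = 1 - PowerSeries.C (a + d) * X + PowerSeries.C (a * d - x) * X ^ 2 := by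
    rw [hD, map_add, map_sub, map_mul]
    ring
  have hDH : D * H = 1 := by
    rw [hDe]
    ext n
    rw [add_mul, sub_mul, one_mul, map_add, map_sub, mul_assoc, mul_assoc,
      PowerSeries.coeff_C_mul, PowerSeries.coeff_C_mul]
    match n with
    | 0 =>
      simp [hH, h0]
    | 1 =>
      rw [PowerSeries.coeff_X_pow_mul', show (1 : ℕ) = 0 + 1 from rfl,
        PowerSeries.coeff_succ_X_mul]
      simp [hH, h0, h1, PowerSeries.coeff_one]
    | n + 2 =>
      rw [PowerSeries.coeff_X_pow_mul', if_pos (by omega), show n + 2 = (n + 1) + 1 from rfl,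
        PowerSeries.coeff_succ_X_mul, show n + 1 + 1 - 2 = n by omega]
      simp only [hH, PowerSeries.coeff_mk, PowerSeries.coeff_one]
      rw [show n + 1 + 1 = n + 2 from rfl, hrec n, if_neg (by omega)]
      ring
  set Fn : PowerSeries ℂ :=
    ∑ i ∈ range (r + 1), PowerSeries.C (x ^ i) * (X ^ (2 * i) * (PP a i * PP d i)) with hFn
  have hF := FF_eq a d x r
  rw [← hD, ← hFn] at hF
  have hHF : H = Fn + X ^ (2 * (r + 1)) *
      (PowerSeries.C (x ^ (r + 1)) * (PP a r * PP d r) * H) := by
    have e1 : H * (D * Fn) = Fn := by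
      calc H * (D * Fn) = (D * H) * Fn := by ring
        _ = Fn := by rw [hDH, one_mul]
    rw [hF] at e1
    rw [← e1]
    ring
  have hr : h r = PowerSeries.coeff r H := by simp [hH]
  rw [hr, hHF, map_add, PowerSeries.coeff_X_pow_mul', if_neg (by omega), add_zero, hFn,
    map_sum]
  refine sum_congr rfl fun i _ => ?_
  rw [PowerSeries.coeff_C_mul, coeff_term, mul_sum]
  refine sum_congr rfl fun p _ => ?_
  rw [mul_sum]
  refine sum_congr rfl fun q _ => ?_
  split_ifs with hc
  · ring
  · ring

end Pool.Agent.H80.TO
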