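import Pool.Agent.H84.TO.TargetsR

/-!
Integration by parts for the real pairing.
-/

open MeasureTheory Filter Topology Set

namespace Pool.Agent.H80.TO
open Pool.Agent.H84.TO

/-- the weight -/
noncomputable def WW (ℓ : ℕ) (x : ℝ) : ℝ := (1 - x ^ 2) ^ ((ℓ : ℝ) / 2 - 1)

theorem WW_cont (ℓ : ℕ) (hℓ : 2 ≤ ℓ) : Continuous (WW ℓ) := by
  have hl : (2 : ℝ) ≤ ℓ := by exact_mod_cast hℓ
  exact (continuous_const.sub (continuous_id.pow 2)).rpow_const fun x => Or.inr (by linarith)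

/-- moments on `[x, 1]` -/
noncomputable def AA (ℓ n : ℕ) (x : ℝ) : ℝ := ∫ y in x..1, y ^ n * WW ℓ y

theorem AA_deriv (ℓ : ℕ) (hℓ : 2 ≤ ℓ) (n : ℕ) (x : ℝ) :
    HasDerivAt (AA ℓ n) (-(x ^ n * WW ℓ x)) x := by
  have hc : Continuous fun y : ℝ => y ^ n * WW ℓ y := (continuous_id.pow n).mul (WW_cont ℓ hℓ)
  have h := (hc.integral_hasStrictDerivAt 1 x).hasDerivAt.neg
  have e : AA ℓ n = -fun u => ∫ y in (1 : ℝ)..u, y ^ n * WW ℓ y := by
    funext u
    simp only [Pi.neg_apply]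
    unfold AA
    exact intervalIntegral.integral_symm _ _
  rw [e]
  exact h

theorem AA_cont (ℓ : ℕ) (hℓ : 2 ≤ ℓ) (n : ℕ) : Continuous (AA ℓ n) :=
  continuous_iff_continuousAt.mpr fun x => (AA_deriv ℓ hℓ n x).continuousAt

theorem GG_eq (ℓ : ℕ) (hℓ : 2 ≤ ℓ) (i k : ℕ) :
    GG ℓ i k = ∫ x in (-1 : ℝ)..1, (x ^ (2 * i) * WW ℓ x * AA ℓ (2 * k + 1) x -
      x ^ (2 * k + 1) * WW ℓ x * AA ℓ (2 * i) x) := by
  unfold GG
  rw [intervalIntegral.integral_of_le (by norm_num), integral_Ioc_eq_integral_Ioo]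
  refine setIntegral_congr_fun measurableSet_Ioo fun x hx => ?_
  rw [← integral_Ioc_eq_integral_Ioo, ← intervalIntegral.integral_of_le hx.2.le]
  have hc : ∀ n : ℕ, Continuous fun y : ℝ => y ^ n * WW ℓ y := fun n =>
    (continuous_id.pow n).mul (WW_cont ℓ hℓ)
  have h1 : IntervalIntegrable (fun y => x ^ (2 * i) * WW ℓ x * (y ^ (2 * k + 1) * WW ℓ y))
      volume x 1 := ((hc _).const_mul _).intervalIntegrable _ _
  have h2 : IntervalIntegrable (fun y => x ^ (2 * k + 1) * WW ℓ x * (y ^ (2 * i) * WW ℓ y))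
      volume x 1 := ((hc _).const_mul _).intervalIntegrable _ _
  unfold AA
  rw [← intervalIntegral.integral_const_mul, ← intervalIntegral.integral_const_mul,
    ← intervalIntegral.integral_sub h1 h2]
  refine intervalIntegral.integral_congr fun y _ => ?_
  simp only [WW]
  ring

/-- the primitive -/
noncomputable def hp (ℓ k : ℕ) (x : ℝ) : ℝ :=
  x ^ (2 * k) * (1 - x ^ 2) ^ ((ℓ : ℝ) / 2) / (2 * k + ℓ)

theorem hp_deriv (ℓ : ℕ) (hℓ : 2 ≤ ℓ) (k : ℕ) (x : ℝ) (hx : x ^ 2 ≤ 1) :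
    HasDerivAt (hp ℓ k) (-((x ^ (2 * k + 1) -
      2 * k / (2 * k + ℓ) * x ^ (2 * (k - 1) + 1)) * WW ℓ x)) x := by
  have hl : (2 : ℝ) ≤ ℓ := by exact_mod_cast hℓ
  have hne : (2 * k + ℓ : ℝ) ≠ 0 := by positivity
  have h1 : HasDerivAt (fun x : ℝ => 1 - x ^ 2) (-(2 * x)) x := by
    simpa using (hasDerivAt_pow 2 x).const_sub 1
  have h2 : HasDerivAt (fun x : ℝ => (1 - x ^ 2) ^ ((ℓ : ℝ) / 2))
      (-(2 * x) * ((ℓ : ℝ) / 2) * (1 - x ^ 2) ^ ((ℓ : ℝ) / 2 - 1)) x :=
    h1.rpow_const (Or.inr (by linarith))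
  have h3 := ((hasDerivAt_pow (2 * k) x).mul h2).div_const (2 * k + ℓ : ℝ)
  have e : (1 - x ^ 2) ^ ((ℓ : ℝ) / 2) = WW ℓ x * (1 - x ^ 2) := by
    have := Real.rpow_add_one' (x := 1 - x ^ 2) (y := (ℓ : ℝ) / 2 - 1) (by linarith)
      (by linarith)
    rw [sub_add_cancel] at this
    exact this
  refine (h3.congr_deriv ?_)
  rw [e]
  unfold WW
  rcases Nat.eq_zero_or_pos k with rfl | hk
  · push_cast
    simp only [mul_zero, zero_mul, zero_div, zero_add, pow_zero]
    field_simp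
    ring
  · have e1 : 2 * k - 1 = 2 * (k - 1) + 1 := by omega
    have e2 : 2 * k + 1 = (2 * (k - 1) + 1) + 2 := by omega
    have e3 : 2 * k = (2 * (k - 1) + 1) + 1 := by omega
    rw [e1, e2, pow_add x (2 * (k - 1) + 1) 2]
    have e4 : x ^ (2 * k) = x ^ (2 * (k - 1) + 1) * x := by
      conv_lhs => rw [e3, pow_succ]
    rw [e4]
    push_cast
    field_simp
    ring

theorem re3 (hBET : T_BET) : T_RE3 := by
  intro ℓ hℓ i k
  have hl : (2 : ℝ) ≤ ℓ := by exact_mod_cast hℓ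
  set c : ℝ := 2 * k / (2 * k + ℓ) with hc
  have hWc := WW_cont ℓ hℓ
  have hsq : ∀ x ∈ uIcc (-1 : ℝ) 1, x ^ 2 ≤ 1 := by
    intro x hx
    rw [uIcc_of_le (by norm_num)] at hx
    nlinarith [hx.1, hx.2]
  have h1 : hp ℓ k 1 = 0 := by
    unfold hp
    rw [one_pow, one_pow, sub_self, Real.zero_rpow (by positivity)]
    simp
  have hm1 : hp ℓ k (-1) = 0 := by
    unfold hp
    rw [show (1 : ℝ) - (-1) ^ 2 = 0 by norm_num, Real.zero_rpow (by positivity)]
    simp
  have hhc : ContinuousOn (hp ℓ k) (uIcc (-1 : ℝ) 1) := fun x hx =>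
    (hp_deriv ℓ hℓ k x (hsq x hx)).continuousAt.continuousWithinAt
  -- the inner integral
  have hinner : ∀ x ∈ uIcc (-1 : ℝ) 1,
      AA ℓ (2 * k + 1) x - c * AA ℓ (2 * (k - 1) + 1) x = hp ℓ k x := by
    intro x hx
    rw [uIcc_of_le (by norm_num)] at hx
    have hcn : ∀ n : ℕ, Continuous fun y : ℝ => y ^ n * WW ℓ y := fun n =>
      (continuous_id.pow n).mul hWc
    unfold AA
    rw [← intervalIntegral.integral_const_mul, ← intervalIntegral.integral_sub
      ((hcn _).intervalIntegrable _ _) (((hcn _).const_mul _).intervalIntegrable _ _)]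
    have hftc := intervalIntegral.integral_eq_sub_of_hasDerivAt
      (f := hp ℓ k) (f' := fun y => -((y ^ (2 * k + 1) -
        2 * k / (2 * k + ℓ) * y ^ (2 * (k - 1) + 1)) * WW ℓ y)) (a := x) (b := 1)
      (fun y hy => hp_deriv ℓ hℓ k y (by
        rw [uIcc_of_le hx.2] at hy
        nlinarith [hy.1, hy.2, hx.1])) (by
        refine Continuous.intervalIntegrable ?_ _ _
        fun_prop)
    rw [h1, zero_sub, intervalIntegral.integral_neg, neg_inj] at hftc
    rw [← hftc]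
    refine intervalIntegral.integral_congr fun y _ => ?_
    simp only [hc]
    ring
  -- integration by parts
  have hparts := intervalIntegral.integral_mul_deriv_eq_deriv_mul (a := (-1 : ℝ)) (b := 1)
    (u := AA ℓ (2 * i)) (u' := fun x => -(x ^ (2 * i) * WW ℓ x)) (v := hp ℓ k)
    (v' := fun x => -((x ^ (2 * k + 1) -
        2 * k / (2 * k + ℓ) * x ^ (2 * (k - 1) + 1)) * WW ℓ x))
    (fun x _ => AA_deriv ℓ hℓ (2 * i) x) (fun x hx => hp_deriv ℓ hℓ k x (hsq x hx))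
    (by refine Continuous.intervalIntegrable ?_ _ _; fun_prop)
    (by refine Continuous.intervalIntegrable ?_ _ _; fun_prop)
  rw [h1, hm1, mul_zero, mul_zero, sub_zero, zero_sub] at hparts
  -- the combination
  have hAc : ∀ n, Continuous (AA ℓ n) := AA_cont ℓ hℓ
  have hcomb : GG ℓ i k - c * GG ℓ i (k - 1) =
      2 * ∫ x in (-1 : ℝ)..1, x ^ (2 * i) * WW ℓ x * hp ℓ k x := by
    rw [GG_eq ℓ hℓ, GG_eq ℓ hℓ, ← intervalIntegral.integral_const_mul,
      ← intervalIntegral.integral_sub]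
    rotate_left
    · refine Continuous.intervalIntegrable ?_ _ _
      have := hAc (2 * k + 1)
      have := hAc (2 * i)
      fun_prop
    · refine Continuous.intervalIntegrable ?_ _ _
      have := hAc (2 * (k - 1) + 1)
      have := hAc (2 * i)
      fun_prop
    have e1 : ∫ x in (-1 : ℝ)..1, ((x ^ (2 * i) * WW ℓ x * AA ℓ (2 * k + 1) x -
        x ^ (2 * k + 1) * WW ℓ x * AA ℓ (2 * i) x) -
        c * (x ^ (2 * i) * WW ℓ x * AA ℓ (2 * (k - 1) + 1) x -
        x ^ (2 * (k - 1) + 1) * WW ℓ x * AA ℓ (2 * i) x)) =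
        ∫ x in (-1 : ℝ)..1, (x ^ (2 * i) * WW ℓ x * hp ℓ k x +
          AA ℓ (2 * i) x * (-((x ^ (2 * k + 1) -
            2 * k / (2 * k + ℓ) * x ^ (2 * (k - 1) + 1)) * WW ℓ x))) := by
      refine intervalIntegral.integral_congr fun x hx => ?_
      rw [← hinner x hx, hc]
      ring
    have hi1 : IntervalIntegrable (fun x => x ^ (2 * i) * WW ℓ x * hp ℓ k x) volume (-1) 1 := by
      refine ContinuousOn.intervalIntegrable ?_
      exact ((continuous_id.pow (2 * i)).mul hWc).continuousOn.mul hhc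
    have hi2 : IntervalIntegrable (fun x => AA ℓ (2 * i) x * (-((x ^ (2 * k + 1) -
            2 * k / (2 * k + ℓ) * x ^ (2 * (k - 1) + 1)) * WW ℓ x))) volume (-1) 1 := by
      refine Continuous.intervalIntegrable ?_ _ _
      have := hAc (2 * i)
      fun_prop
    rw [e1, intervalIntegral.integral_add hi1 hi2, hparts,
      ← intervalIntegral.integral_neg]
    have e2 : ∫ x in (-1 : ℝ)..1, -(-(x ^ (2 * i) * WW ℓ x) * hp ℓ k x) =
        ∫ x in (-1 : ℝ)..1, x ^ (2 * i) * WW ℓ x * hp ℓ k x := by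
      refine intervalIntegral.integral_congr fun x _ => ?_
      ring
    rw [e2]
    ring
  have hfin : ∫ x in (-1 : ℝ)..1, x ^ (2 * i) * WW ℓ x * hp ℓ k x =
      1 / (2 * k + ℓ) * bt (i + k + 1 / 2) ℓ := by
    have hb := (hBET (i + k) ℓ (by positivity)).2.2
    push_cast at hb
    rw [← hb, intervalIntegral.integral_of_le (by norm_num), integral_Ioc_eq_integral_Ioo,
      ← integral_const_mul]
    refine setIntegral_congr_fun measurableSet_Ioo fun x hx => ?_
    have hpos : 0 < 1 - x ^ 2 := by nlinarith [hx.1, hx.2]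
    have e : (1 - x ^ 2) ^ ((ℓ : ℝ) - 1) = WW ℓ x * (1 - x ^ 2) ^ ((ℓ : ℝ) / 2) := by
      unfold WW
      rw [← Real.rpow_add hpos]
      congr 1
      ring
    rw [e]
    unfold hp
    rw [mul_add, pow_add]
    ring
  rw [hcomb, hfin]
  ring

end Pool.Agent.H80.TO
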