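import Pool.Agent.H80.TO.W2
import Pool.Agent.H80.TO.RE3

/-!
Real moments of the 2x2 truncation.
-/

open MeasureTheory Matrix Polynomial Filter Topology
open scoped ENNReal

namespace Pool.Agent.H80.TO
open Pool.Agent.H84.TO

/-! ### algebra -/

theorem hh_eig (x y : ℝ) : ∀ r : ℕ, hh (x + y) (x * y) r * (y - x) = y ^ (r + 1) - x ^ (r + 1) ∧
    hh (x + y) (x * y) (r + 1) * (y - x) = y ^ (r + 2) - x ^ (r + 2) := by
  intro r
  induction r with
  | zero =>
    simp only [hh]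
    constructor <;> ring
  | succ r ih =>
    refine ⟨ih.2, ?_⟩
    change ((x + y) * hh (x + y) (x * y) (r + 1) - x * y * hh (x + y) (x * y) r) * (y - x) = _
    rw [sub_mul, mul_assoc, mul_assoc (x * y), ih.1, ih.2]
    ring

theorem sj_eig (j k : ℕ) (B : Matrix (Fin 2) (Fin 2) ℝ) (x y : ℝ) (h1 : x + y = B.trace)
    (h2 : x * y = B.det) : sj j k B * (y - x) = x ^ j * y ^ k - x ^ k * y ^ j := by
  unfold sj
  rw [← h1, ← h2]
  split_ifs with hjk hkj
  · obtain ⟨d, rfl⟩ : ∃ d, k = j + d + 1 := ⟨k - j - 1, by omega⟩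
    rw [show j + d + 1 - j - 1 = d by omega, mul_assoc, (hh_eig x y d).1]
    ring
  · obtain ⟨d, rfl⟩ : ∃ d, j = k + d + 1 := ⟨j - k - 1, by omega⟩
    rw [show k + d + 1 - k - 1 = d by omega, neg_mul, mul_assoc, (hh_eig x y d).1]
    ring
  · have : j = k := by omega
    subst this
    ring

theorem hh_bound (τ δ : ℝ) (hτ : |τ| ≤ 2) (hδ : |δ| ≤ 2) : ∀ r : ℕ, |hh τ δ r| ≤ 4 ^ r ∧
    |hh τ δ (r + 1)| ≤ 4 ^ (r + 1) := by
  intro r
  induction r with
  | zero =>
    simp only [hh]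
    constructor
    · simp
    · norm_num
      linarith
  | succ r ih =>
    refine ⟨ih.2, ?_⟩
    change |τ * hh τ δ (r + 1) - δ * hh τ δ r| ≤ _
    calc |τ * hh τ δ (r + 1) - δ * hh τ δ r| ≤ |τ * hh τ δ (r + 1)| + |δ * hh τ δ r| :=
          abs_sub _ _
      _ = |τ| * |hh τ δ (r + 1)| + |δ| * |hh τ δ r| := by rw [abs_mul, abs_mul]
      _ ≤ 2 * 4 ^ (r + 1) + 2 * 4 ^ r := by
          gcongr
          · exact ih.2
          · exact ih.1
      _ ≤ 4 ^ (r + 1 + 1) := by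
          have : (0 : ℝ) < 4 ^ r := by positivity
          have e1 : (4 : ℝ) ^ (r + 1 + 1) = 16 * 4 ^ r := by ring
          have e2 : (4 : ℝ) ^ (r + 1) = 4 * 4 ^ r := by ring
          rw [e1, e2]
          linarith

theorem sj_bound (j k : ℕ) (B : Matrix (Fin 2) (Fin 2) ℝ) (hB : ∀ i j, |B i j| ≤ 1) :
    |sj j k B| ≤ 2 ^ j * 4 ^ (k - j - 1) + 2 ^ k * 4 ^ (j - k - 1) := by
  have htr : |B.trace| ≤ 2 := by
    rw [Matrix.trace_fin_two]
    calc |B 0 0 + B 1 1| ≤ |B 0 0| + |B 1 1| := abs_add_le _ _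
      _ ≤ 2 := by linarith [hB 0 0, hB 1 1]
  have hdet : |B.det| ≤ 2 := by
    rw [Matrix.det_fin_two]
    calc |B 0 0 * B 1 1 - B 0 1 * B 1 0| ≤ |B 0 0 * B 1 1| + |B 0 1 * B 1 0| := abs_sub _ _
      _ = |B 0 0| * |B 1 1| + |B 0 1| * |B 1 0| := by rw [abs_mul, abs_mul]
      _ ≤ 1 * 1 + 1 * 1 := by
          gcongr <;> exact hB _ _
      _ = 2 := by norm_num
  have p1 : (0 : ℝ) < 2 ^ j * 4 ^ (k - j - 1) := by positivity
  have p2 : (0 : ℝ) < 2 ^ k * 4 ^ (j - k - 1) := by positivity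
  unfold sj
  split_ifs with h1 h2
  · rw [abs_mul, abs_pow]
    have : |B.det| ^ j * |hh B.trace B.det (k - j - 1)| ≤ 2 ^ j * 4 ^ (k - j - 1) := by
      gcongr
      exact (hh_bound _ _ htr hdet _).1
    linarith
  · rw [abs_neg, abs_mul, abs_pow]
    have : |B.det| ^ k * |hh B.trace B.det (j - k - 1)| ≤ 2 ^ k * 4 ^ (j - k - 1) := by
      gcongr
      exact (hh_bound _ _ htr hdet _).1
    linarith
  · rw [abs_zero]
    positivity

theorem tr_cont : Continuous fun B : Matrix (Fin 2) (Fin 2) ℝ => B.trace :=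
  continuous_id.matrix_trace

theorem det_cont : Continuous fun B : Matrix (Fin 2) (Fin 2) ℝ => B.det :=
  continuous_id.matrix_det

theorem hh_cont : ∀ r : ℕ, (Continuous fun B : Matrix (Fin 2) (Fin 2) ℝ => hh B.trace B.det r) ∧
    (Continuous fun B : Matrix (Fin 2) (Fin 2) ℝ => hh B.trace B.det (r + 1)) := by
  intro r
  induction r with
  | zero =>
    simp only [hh]
    exact ⟨continuous_const, tr_cont⟩
  | succ r ih =>
    exact ⟨ih.2, (tr_cont.mul ih.2).sub (det_cont.mul ih.1)⟩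

theorem sj_cont (j k : ℕ) : Continuous (sj j k) := by
  unfold sj
  split_ifs with h1 h2
  · exact (det_cont.pow _).mul (hh_cont _).1
  · exact ((det_cont.pow _).mul (hh_cont _).1).neg
  · exact continuous_const

/-! ### the pairing as an integral over the triangle -/

/-- the integrand -/
noncomputable def FF (ℓ i k : ℕ) (x y : ℝ) : ℝ :=
  (x ^ (2 * i) * y ^ (2 * k + 1) - x ^ (2 * k + 1) * y ^ (2 * i)) * (WW ℓ x * WW ℓ y)

/-- the integrand on the triangle -/
noncomputable def TT (ℓ i k : ℕ) (p : ℝ × ℝ) : ℝ :=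
  Set.indicator {p : ℝ × ℝ | p.1 < p.2} (fun p => FF ℓ i k p.1 p.2) p

/-- the interval -/
noncomputable def NN : Measure ℝ := volume.restrict (Set.Ioo (-1 : ℝ) 1)

instance : IsFiniteMeasure NN := by
  unfold NN
  infer_instance

theorem FF_cont (ℓ : ℕ) (hℓ : 2 ≤ ℓ) (i k : ℕ) : Continuous (Function.uncurry (FF ℓ i k)) := by
  have h := WW_cont ℓ hℓ
  unfold FF Function.uncurry
  fun_prop

theorem TT_meas (ℓ : ℕ) (hℓ : 2 ≤ ℓ) (i k : ℕ) : Measurable (TT ℓ i k) :=
  (FF_cont ℓ hℓ i k).measurable.indicator (measurableSet_lt measurable_fst measurable_snd)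

theorem WW_le (ℓ : ℕ) (hℓ : 2 ≤ ℓ) (x : ℝ) (hx : x ∈ Set.Ioo (-1 : ℝ) 1) :
    0 ≤ WW ℓ x ∧ WW ℓ x ≤ 1 := by
  have hl : (2 : ℝ) ≤ ℓ := by exact_mod_cast hℓ
  have h0 : 0 ≤ 1 - x ^ 2 := by nlinarith [hx.1, hx.2]
  exact ⟨Real.rpow_nonneg h0 _, Real.rpow_le_one h0 (by nlinarith) (by linarith)⟩

theorem TT_int (ℓ : ℕ) (hℓ : 2 ≤ ℓ) (i k : ℕ) : Integrable (TT ℓ i k) (NN.prod NN) := by
  refine Integrable.of_bound (TT_meas ℓ hℓ i k).aestronglyMeasurable 2 ?_
  have h : ∀ᵐ p ∂(NN.prod NN), p ∈ Set.Ioo (-1 : ℝ) 1 ×ˢ Set.Ioo (-1 : ℝ) 1 := by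
    unfold NN
    rw [Measure.prod_restrict]
    exact ae_restrict_mem (measurableSet_Ioo.prod measurableSet_Ioo)
  filter_upwards [h] with p hp
  obtain ⟨hx, hy⟩ := hp
  have hx1 : |p.1| ≤ 1 := abs_le.mpr ⟨hx.1.le, hx.2.le⟩
  have hy1 : |p.2| ≤ 1 := abs_le.mpr ⟨hy.1.le, hy.2.le⟩
  have hF : |FF ℓ i k p.1 p.2| ≤ 2 := by
    obtain ⟨a1, a2⟩ := WW_le ℓ hℓ _ hx
    obtain ⟨b1, b2⟩ := WW_le ℓ hℓ _ hy
    unfold FF
    rw [abs_mul, abs_mul, abs_of_nonneg a1, abs_of_nonneg b1]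
    have e1 : |p.1 ^ (2 * i) * p.2 ^ (2 * k + 1) - p.1 ^ (2 * k + 1) * p.2 ^ (2 * i)| ≤ 2 := by
      refine (abs_sub _ _).trans ?_
      rw [abs_mul, abs_mul, abs_pow, abs_pow, abs_pow, abs_pow]
      have c1 : ∀ m, |p.1| ^ m ≤ 1 := fun m => pow_le_one₀ (abs_nonneg _) hx1
      have c2 : ∀ m, |p.2| ^ m ≤ 1 := fun m => pow_le_one₀ (abs_nonneg _) hy1
      have d1 : |p.1| ^ (2 * i) * |p.2| ^ (2 * k + 1) ≤ 1 :=
        mul_le_one₀ (c1 _) (by positivity) (c2 _)
      have d2 : |p.1| ^ (2 * k + 1) * |p.2| ^ (2 * i) ≤ 1 :=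
        mul_le_one₀ (c1 _) (by positivity) (c2 _)
      linarith
    exact (mul_le_mul e1 (mul_le_mul a2 b2 b1 zero_le_one) (mul_nonneg a1 b1)
      zero_le_two).trans (by norm_num)
  unfold TT
  rw [Real.norm_eq_abs]
  by_cases h : p ∈ {p : ℝ × ℝ | p.1 < p.2}
  · rw [Set.indicator_of_mem h]
    exact hF
  · rw [Set.indicator_of_notMem h, abs_zero]
    norm_num

theorem TT_GG (ℓ : ℕ) (hℓ : 2 ≤ ℓ) (i k : ℕ) : ∫ p, TT ℓ i k p ∂(NN.prod NN) = GG ℓ i k := by
  rw [integral_prod _ (TT_int ℓ hℓ i k)]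
  unfold GG NN
  refine setIntegral_congr_fun measurableSet_Ioo fun x hx => ?_
  have e : ∀ y, TT ℓ i k (x, y) = Set.indicator (Set.Ioi x) (FF ℓ i k x) y := by
    intro y
    unfold TT
    by_cases h : x < y
    · rw [Set.indicator_of_mem (show (x, y) ∈ {p : ℝ × ℝ | p.1 < p.2} from h),
        Set.indicator_of_mem (show y ∈ Set.Ioi x from h)]
    · rw [Set.indicator_of_notMem (show (x, y) ∉ {p : ℝ × ℝ | p.1 < p.2} from h),
        Set.indicator_of_notMem (show y ∉ Set.Ioi x from h)]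
  simp_rw [e]
  rw [setIntegral_indicator measurableSet_Ioi]
  have hs : Set.Ioo (-1 : ℝ) 1 ∩ Set.Ioi x = Set.Ioo x 1 := by
    ext y
    simp only [Set.mem_inter_iff, Set.mem_Ioo, Set.mem_Ioi]
    constructor
    · rintro ⟨⟨_, h2⟩, h3⟩
      exact ⟨h3, h2⟩
    · rintro ⟨h1, h2⟩
      exact ⟨⟨lt_trans hx.1 h1, h2⟩, h1⟩
  rw [hs]
  rfl

theorem TT_lint (ℓ : ℕ) (hℓ : 2 ≤ ℓ) (i k : ℕ) (ε : ℝ) :
    ∫⁻ p, ENNReal.ofReal (ε * TT ℓ i k p) ∂(NN.prod NN) =
    ∫⁻ x in Set.Ioo (-1 : ℝ) 1, ∫⁻ y in Set.Ioo x 1, ENNReal.ofReal (ε * FF ℓ i k x y) := by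
  have hm : Measurable fun p => ENNReal.ofReal (ε * TT ℓ i k p) :=
    ((TT_meas ℓ hℓ i k).const_mul ε).ennreal_ofReal
  rw [lintegral_prod _ hm.aemeasurable]
  unfold NN
  refine setLIntegral_congr_fun measurableSet_Ioo fun x hx => ?_
  have e : ∀ y, ENNReal.ofReal (ε * TT ℓ i k (x, y)) =
      Set.indicator (Set.Ioi x) (fun y => ENNReal.ofReal (ε * FF ℓ i k x y)) y := by
    intro y
    unfold TT
    by_cases h : x < y
    · rw [Set.indicator_of_mem (show (x, y) ∈ {p : ℝ × ℝ | p.1 < p.2} from h),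
        Set.indicator_of_mem (show y ∈ Set.Ioi x from h)]
    · rw [Set.indicator_of_notMem (show (x, y) ∉ {p : ℝ × ℝ | p.1 < p.2} from h),
        Set.indicator_of_notMem (show y ∉ Set.Ioi x from h)]
      simp
  simp_rw [e]
  rw [setLIntegral_indicator measurableSet_Ioi]
  have hs : Set.Ioi x ∩ Set.Ioo (-1 : ℝ) 1 = Set.Ioo x 1 := by
    ext y
    simp only [Set.mem_inter_iff, Set.mem_Ioo, Set.mem_Ioi]
    constructor
    · rintro ⟨h3, _, h2⟩
      exact ⟨h3, h2⟩
    · rintro ⟨h1, h2⟩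
      exact ⟨h1, lt_trans hx.1 h1, h2⟩
  rw [hs]

/-! ### the moments -/

/-- discriminant -/
noncomputable def disc (B : Matrix (Fin 2) (Fin 2) ℝ) : ℝ := B.trace ^ 2 - 4 * B.det

theorem disc_cont : Continuous disc := (tr_cont.pow 2).sub (continuous_const.mul det_cont)

theorem disc_null (hLIN : T_LIN) : (volume : Measure (Matrix (Fin 2) (Fin 2) ℝ))
    {B | disc B = 0} = 0 := by
  have hZ : MeasurableSet {B : Matrix (Fin 2) (Fin 2) ℝ | disc B = 0} :=
    (isClosed_eq disc_cont continuous_const).measurableSet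
  refine (hLIN (Fin 2) (Fin 2) _ hZ).1 ⟨!![1, 0; 0, 0], fun B => ?_⟩
  refine Set.Finite.measure_zero ?_ _
  have e : {t : ℝ | B + t • (!![1, 0; 0, 0] : Matrix (Fin 2) (Fin 2) ℝ) ∈
      {B : Matrix (Fin 2) (Fin 2) ℝ | disc B = 0}} =
      {t : ℝ | (t + (B 0 0 - B 1 1)) ^ 2 = -(4 * (B 0 1 * B 1 0))} := by
    ext t
    simp only [Set.mem_setOf_eq, disc, Matrix.trace_fin_two, Matrix.det_fin_two,
      Matrix.add_apply, Matrix.smul_apply, smul_eq_mul]
    simp only [Matrix.of_apply, Matrix.cons_val', Matrix.cons_val_zero, Matrix.cons_val_one,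
      Matrix.cons_val_fin_one, mul_one, mul_zero, add_zero]
    constructor <;> intro h <;> linarith
  rw [e]
  set c := -(4 * (B 0 1 * B 1 0))
  refine Set.Finite.subset (Set.toFinite {Real.sqrt c - (B 0 0 - B 1 1),
    -Real.sqrt c - (B 0 0 - B 1 1)}) fun t ht => ?_
  have ht' : (t + (B 0 0 - B 1 1)) ^ 2 = c := ht
  have hc : 0 ≤ c := ht' ▸ sq_nonneg _
  have h2 : (t + (B 0 0 - B 1 1)) ^ 2 = (Real.sqrt c) ^ 2 := by rw [ht', Real.sq_sqrt hc]
  rcases sq_eq_sq_iff_eq_or_eq_neg.mp h2 with h | h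
  · left
    linarith
  · right
    simp only [Set.mem_singleton_iff]
    linarith

theorem re2 (hW2 : T_W2) (hRE1 : T_RE1) (hSYM : T_SYM) (hLIN : T_LIN) : T_RE2 := by
  intro ℓ hℓ μ _ _ i k
  have hl : (2 : ℝ) ≤ ℓ := by exact_mod_cast hℓ
  obtain ⟨hprob, hae, -, -⟩ := hSYM ℓ μ
  set ρ := om2 μ with hρ
  have hdens := hW2 ℓ hℓ μ
  rw [← hρ] at hdens
  -- null sets
  have hS : MeasurableSet {B : Matrix (Fin 2) (Fin 2) ℝ | 0 < disc B} :=
    (isOpen_lt continuous_const disc_cont).measurableSet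
  have hZm : MeasurableSet {B : Matrix (Fin 2) (Fin 2) ℝ | disc B = 0} :=
    (isClosed_eq disc_cont continuous_const).measurableSet
  have hZ : ρ {B | disc B = 0} = 0 := by
    have h := hdens (Set.indicator {B | disc B = 0} fun _ => 1)
      (measurable_const.indicator hZm)
    rw [lintegral_indicator hZm, setLIntegral_one] at h
    rw [h]
    have : ∫⁻ B in Bal, Set.indicator {B | disc B = 0} (fun _ => (1 : ℝ≥0∞)) B *
        ENNReal.ofReal (dn ℓ B) = 0 := by
      rw [lintegral_eq_zero_iff' (by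
        have := (measurable_const.indicator hZm :
          Measurable (Set.indicator {B | disc B = 0} fun _ => (1 : ℝ≥0∞)))
        refine this.aemeasurable.mul ?_
        refine (Measurable.pow_const ?_ _).ennreal_ofReal.aemeasurable
        exact (continuous_const.sub ((continuous_id.matrix_transpose).matrix_mul
          continuous_id)).matrix_det.measurable)]
      have hnull : ∀ᵐ B ∂(volume.restrict Bal : Measure (Matrix (Fin 2) (Fin 2) ℝ)),
          B ∉ {B | disc B = 0} := by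
        refine ae_restrict_of_ae ?_
        rw [ae_iff]
        simpa using disc_null hLIN
      filter_upwards [hnull] with B hB
      rw [Set.indicator_of_notMem (show B ∉ {B | disc B = 0} from hB), zero_mul]
      rfl
    rw [this, mul_zero]
  have hset : ({B : Matrix (Fin 2) (Fin 2) ℝ | 0 ≤ B.trace ^ 2 - 4 * B.det} : Set _) =ᵐ[ρ]
      {B | 0 < disc B} := by
    have hnull : ∀ᵐ B ∂ρ, disc B ≠ 0 := by
      rw [ae_iff]
      simpa using hZ
    filter_upwards [hnull] with B hB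
    apply propext
    change 0 ≤ disc B ↔ 0 < disc B
    constructor
    · intro h
      exact lt_of_le_of_ne h (Ne.symm hB)
    · exact le_of_lt
  rw [setIntegral_congr_set hset]
  -- integrability
  have hint : Integrable (sj (2 * i) (2 * k + 1)) (ρ.restrict {B | 0 < disc B}) := by
    refine Integrable.restrict ?_
    refine Integrable.of_bound (sj_cont _ _).aestronglyMeasurable
      (2 ^ (2 * i) * 4 ^ (2 * k + 1 - 2 * i - 1) + 2 ^ (2 * k + 1) * 4 ^ (2 * i - (2 * k + 1) - 1))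
      ?_
    filter_upwards [hae] with B hB
    exact sj_bound _ _ B hB
  -- the key computation
  set K : ℝ := Real.pi * bt (1 / 2) (((ℓ : ℝ) - 1) / 2) with hK
  have key : ∀ ε : ℝ, ∫⁻ B in {B | 0 < disc B}, ENNReal.ofReal (ε * sj (2 * i) (2 * k + 1) B) ∂ρ =
      ENNReal.ofReal (cW ℓ) * (ENNReal.ofReal K *
        ∫⁻ p, ENNReal.ofReal (ε * TT ℓ i k p) ∂(NN.prod NN)) := by
    intro ε
    set f : ℝ → ℝ → ℝ≥0∞ := fun x y => ENNReal.ofReal (ε *
      ((x ^ (2 * i) * y ^ (2 * k + 1) - x ^ (2 * k + 1) * y ^ (2 * i)) / (y - x))) with hf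
    have hfm : Measurable (Function.uncurry f) := by
      refine Measurable.ennreal_ofReal ?_
      refine Measurable.const_mul ?_ ε
      refine Measurable.div ?_ (measurable_snd.sub measurable_fst)
      exact ((measurable_fst.pow_const _).mul (measurable_snd.pow_const _)).sub
        ((measurable_fst.pow_const _).mul (measurable_snd.pow_const _))
    have hmm : Measurable fun B => ENNReal.ofReal (ε * sj (2 * i) (2 * k + 1) B) :=
      ((sj_cont _ _).measurable.const_mul ε).ennreal_ofReal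
    have e1 : ∀ B ∈ {B : Matrix (Fin 2) (Fin 2) ℝ | 0 < disc B},
        ENNReal.ofReal (ε * sj (2 * i) (2 * k + 1) B) =
        f ((B.trace - Real.sqrt (B.trace ^ 2 - 4 * B.det)) / 2)
          ((B.trace + Real.sqrt (B.trace ^ 2 - 4 * B.det)) / 2) := by
      intro B hB
      have hB' : 0 < B.trace ^ 2 - 4 * B.det := hB
      have hsq := Real.sq_sqrt hB'.le
      have hsp : 0 < Real.sqrt (B.trace ^ 2 - 4 * B.det) := Real.sqrt_pos.mpr hB'
      set s := Real.sqrt (B.trace ^ 2 - 4 * B.det)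
      have h := sj_eig (2 * i) (2 * k + 1) B ((B.trace - s) / 2) ((B.trace + s) / 2) (by ring)
        (by nlinarith)
      simp only [hf]
      rw [← h, mul_div_assoc, div_self (by
        have : (B.trace + s) / 2 - (B.trace - s) / 2 = s := by ring
        rw [this]
        exact hsp.ne'), mul_one]
    calc ∫⁻ B in {B | 0 < disc B}, ENNReal.ofReal (ε * sj (2 * i) (2 * k + 1) B) ∂ρ
        = ∫⁻ B, Set.indicator {B | 0 < disc B}
            (fun B => ENNReal.ofReal (ε * sj (2 * i) (2 * k + 1) B)) B ∂ρ := by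
          rw [lintegral_indicator hS]
      _ = ENNReal.ofReal (cW ℓ) * ∫⁻ B in Bal, Set.indicator {B | 0 < disc B}
            (fun B => ENNReal.ofReal (ε * sj (2 * i) (2 * k + 1) B)) B *
              ENNReal.ofReal (dn ℓ B) := hdens _ (hmm.indicator hS)
      _ = ENNReal.ofReal (cW ℓ) * ∫⁻ B in Bal ∩ {B | 0 < B.trace ^ 2 - 4 * B.det},
            f ((B.trace - Real.sqrt (B.trace ^ 2 - 4 * B.det)) / 2)
              ((B.trace + Real.sqrt (B.trace ^ 2 - 4 * B.det)) / 2) *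
                ENNReal.ofReal (dn ℓ B) := by
          congr 1
          have e2 : ∀ B, Set.indicator {B | 0 < disc B}
            (fun B => ENNReal.ofReal (ε * sj (2 * i) (2 * k + 1) B)) B *
              ENNReal.ofReal (dn ℓ B) = Set.indicator {B | 0 < disc B}
            (fun B => f ((B.trace - Real.sqrt (B.trace ^ 2 - 4 * B.det)) / 2)
              ((B.trace + Real.sqrt (B.trace ^ 2 - 4 * B.det)) / 2) *
                ENNReal.ofReal (dn ℓ B)) B := by
            intro B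
            by_cases h : B ∈ {B : Matrix (Fin 2) (Fin 2) ℝ | 0 < disc B}
            · rw [Set.indicator_of_mem h, Set.indicator_of_mem h, e1 B h]
            · rw [Set.indicator_of_notMem h, Set.indicator_of_notMem h, zero_mul]
          simp_rw [e2]
          rw [setLIntegral_indicator hS, Set.inter_comm]
          rfl
      _ = ENNReal.ofReal (cW ℓ) * (ENNReal.ofReal K *
            ∫⁻ p, ENNReal.ofReal (ε * TT ℓ i k p) ∂(NN.prod NN)) := by
          rw [hRE1 ℓ hℓ f hfm, TT_lint ℓ hℓ]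
          congr 2
          refine setLIntegral_congr_fun measurableSet_Ioo fun x hx => ?_
          refine setLIntegral_congr_fun measurableSet_Ioo fun y hy => ?_
          simp only [hf]
          have hyx : 0 < y - x := by linarith [hy.1]
          obtain ⟨a1, -⟩ := WW_le ℓ hℓ x hx
          obtain ⟨b1, -⟩ := WW_le ℓ hℓ y ⟨hx.1.trans hy.1, hy.2⟩
          rw [← ENNReal.ofReal_mul' (by
            unfold WW at a1 b1
            positivity)]
          congr 1
          unfold FF WW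
          field_simp
  -- conclusion
  have hcWp : 0 < cW ℓ := by
    have hp1 : 0 < bt (1 / 2) (((ℓ : ℝ) - 1) / 2) := bt_pos (by norm_num) (by linarith)
    have hp2 : 0 < bt (1 / 2) ((ℓ : ℝ) / 2) := bt_pos (by norm_num) (by linarith)
    unfold cW
    positivity
  have hKp : 0 < K := by
    have hp1 : 0 < bt (1 / 2) (((ℓ : ℝ) - 1) / 2) := bt_pos (by norm_num) (by linarith)
    rw [hK]
    positivity
  have k1 := key 1
  have k2 := key (-1)
  simp only [one_mul, neg_mul] at k1 k2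
  rw [integral_eq_lintegral_pos_part_sub_lintegral_neg_part hint, k1, k2, ← TT_GG ℓ hℓ,
    integral_eq_lintegral_pos_part_sub_lintegral_neg_part (TT_int ℓ hℓ i k)]
  rw [ENNReal.toReal_mul, ENNReal.toReal_mul, ENNReal.toReal_mul, ENNReal.toReal_mul,
    ENNReal.toReal_ofReal hcWp.le, ENNReal.toReal_ofReal hKp.le]
  have hcK : cW ℓ * K = ℓ / (2 * bt (1 / 2) (ℓ / 2)) := by
    have hp1 : 0 < bt (1 / 2) (((ℓ : ℝ) - 1) / 2) := bt_pos (by norm_num) (by linarith)
    have hp2 : 0 < bt (1 / 2) ((ℓ : ℝ) / 2) := bt_pos (by norm_num) (by linarith)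
    rw [hK]
    unfold cW
    field_simp
  rw [← hcK]
  ring

end Pool.Agent.H80.TO
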