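import Pool.Agent.H84.TO.TargetsH

/-!
The truncation of a Haar orthogonal matrix is almost surely stable.
-/

open MeasureTheory Matrix Polynomial Filter Topology
open scoped ENNReal

namespace Pool.Agent.H80.TO
open Pool.Agent.H84.TO

variable {ι κ : Type} [Fintype ι] [DecidableEq ι] [Fintype κ] [DecidableEq κ]

theorem dot_nonneg (y : ι → ℝ) : 0 ≤ y ⬝ᵥ y := by
  unfold dotProduct
  exact Finset.sum_nonneg fun i _ => mul_self_nonneg _

theorem dot_pos {y : ι → ℝ} (h : y ≠ 0) : 0 < y ⬝ᵥ y := by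
  refine lt_of_le_of_ne (dot_nonneg y) fun h0 => h ?_
  exact dotProduct_self_eq_zero.mp h0.symm

/-- Cauchy-Schwarz -/
theorem cs (x y : ι → ℝ) : (x ⬝ᵥ y) ^ 2 ≤ (x ⬝ᵥ x) * (y ⬝ᵥ y) := by
  have h := Finset.sum_mul_sq_le_sq_mul_sq Finset.univ x y
  unfold dotProduct
  simpa [sq] using h

theorem max_form (Q : Matrix ι ι ℝ) (hQ : Q ≠ 0) : ∃ l : ℝ, 0 < l ∧
    (∀ y, (Q *ᵥ y) ⬝ᵥ (Q *ᵥ y) ≤ l * (y ⬝ᵥ y)) ∧
    ∃ y0, y0 ≠ 0 ∧ (Q *ᵥ y0) ⬝ᵥ (Q *ᵥ y0) = l * (y0 ⬝ᵥ y0) := by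
  have hne : ∃ z : ι → ℝ, Q *ᵥ z ≠ 0 := by
    by_contra hc
    push Not at hc
    apply hQ
    ext i j
    have := congrFun (hc (Pi.single j 1)) i
    simpa using this
  obtain ⟨z, hz⟩ := hne
  have hz0 : z ≠ 0 := by
    rintro rfl
    exact hz (mulVec_zero Q)
  have hq : Continuous fun y : ι → ℝ => y ⬝ᵥ y := continuous_id.dotProduct continuous_id
  have hQc : Continuous fun y : ι → ℝ => (Q *ᵥ y) ⬝ᵥ (Q *ᵥ y) :=
    (continuous_const.matrix_mulVec continuous_id).dotProduct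
      (continuous_const.matrix_mulVec continuous_id)
  have hcomp : IsCompact {y : ι → ℝ | y ⬝ᵥ y = 1} := by
    refine Metric.isCompact_of_isClosed_isBounded (isClosed_eq hq continuous_const) ?_
    refine isBounded_iff_forall_norm_le.mpr ⟨1, fun y hy => ?_⟩
    rw [pi_norm_le_iff_of_nonneg zero_le_one]
    intro i
    rw [Real.norm_eq_abs, ← sq_le_one_iff_abs_le_one]
    have h1 : y i * y i ≤ ∑ j, y j * y j :=
      Finset.single_le_sum (f := fun j => y j * y j) (fun j _ => mul_self_nonneg _)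
        (Finset.mem_univ i)
    have h2 : ∑ j, y j * y j = 1 := hy
    nlinarith
  have hscale : ∀ y : ι → ℝ, y ≠ 0 → ∃ c : ℝ, 0 < c ∧ c ^ 2 * (y ⬝ᵥ y) = 1 ∧
      (c • y) ∈ {y : ι → ℝ | y ⬝ᵥ y = 1} := by
    intro y hy
    have hp := dot_pos hy
    refine ⟨(Real.sqrt (y ⬝ᵥ y))⁻¹, by positivity, ?_, ?_⟩
    · rw [inv_pow, Real.sq_sqrt hp.le]
      exact inv_mul_cancel₀ hp.ne'
    · change (_ • y) ⬝ᵥ (_ • y) = 1
      rw [smul_dotProduct, dotProduct_smul, smul_eq_mul, smul_eq_mul, ← mul_assoc, ← sq,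
        inv_pow, Real.sq_sqrt hp.le]
      exact inv_mul_cancel₀ hp.ne'
  have hQs : ∀ (c : ℝ) (y : ι → ℝ), (Q *ᵥ (c • y)) ⬝ᵥ (Q *ᵥ (c • y)) =
      c ^ 2 * ((Q *ᵥ y) ⬝ᵥ (Q *ᵥ y)) := by
    intro c y
    rw [mulVec_smul, smul_dotProduct, dotProduct_smul, smul_eq_mul, smul_eq_mul]
    ring
  obtain ⟨c0, -, -, hc0⟩ := hscale z hz0
  obtain ⟨y0, hy0, hmax⟩ := hcomp.exists_isMaxOn ⟨_, hc0⟩ hQc.continuousOn
  have hy01 : y0 ⬝ᵥ y0 = 1 := hy0
  set l : ℝ := (Q *ᵥ y0) ⬝ᵥ (Q *ᵥ y0) with hl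
  have hle : ∀ y, (Q *ᵥ y) ⬝ᵥ (Q *ᵥ y) ≤ l * (y ⬝ᵥ y) := by
    intro y
    by_cases hy : y = 0
    · subst hy
      simp
    · obtain ⟨c, hc, hc1, hcm⟩ := hscale y hy
      have h1 := hmax hcm
      simp only [Set.mem_setOf_eq] at h1
      rw [hQs] at h1
      have hc2 : 0 < c ^ 2 := by positivity
      have : c ^ 2 * ((Q *ᵥ y) ⬝ᵥ (Q *ᵥ y)) ≤ c ^ 2 * (l * (y ⬝ᵥ y)) := by
        calc c ^ 2 * ((Q *ᵥ y) ⬝ᵥ (Q *ᵥ y)) ≤ l := h1
          _ = c ^ 2 * (l * (y ⬝ᵥ y)) := by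
            rw [mul_left_comm, hc1, mul_one]
      exact le_of_mul_le_mul_left this hc2
  refine ⟨l, ?_, hle, y0, ?_, ?_⟩
  · have h1 := hle z
    have h2 := dot_pos hz
    have h3 := dot_pos hz0
    by_contra hc
    push Not at hc
    nlinarith
  · rintro rfl
    simp at hy01
  · rw [hy01, mul_one]

/-- a vector attaining the bound is an eigenvector of `Qᵀ Q` -/
theorem mem_iff (Q : Matrix ι ι ℝ) (l : ℝ) (hle : ∀ y, (Q *ᵥ y) ⬝ᵥ (Q *ᵥ y) ≤ l * (y ⬝ᵥ y))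
    (y : ι → ℝ) : (Q *ᵥ y) ⬝ᵥ (Q *ᵥ y) = l * (y ⬝ᵥ y) ↔ (Qᵀ * Q) *ᵥ y = l • y := by
  have hform : ∀ y : ι → ℝ, y ⬝ᵥ ((l • (1 : Matrix ι ι ℝ) - Qᵀ * Q) *ᵥ y) =
      l * (y ⬝ᵥ y) - (Q *ᵥ y) ⬝ᵥ (Q *ᵥ y) := by
    intro y
    rw [sub_mulVec, dotProduct_sub, smul_mulVec, one_mulVec, dotProduct_smul, smul_eq_mul,
      ← mulVec_mulVec, dotProduct_mulVec y Qᵀ, vecMul_transpose]
  have hpsd : (l • (1 : Matrix ι ι ℝ) - Qᵀ * Q).PosSemidef := by
    refine PosSemidef.of_dotProduct_mulVec_nonneg ?_ fun y => ?_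
    · unfold Matrix.IsHermitian
      rw [conjTranspose_eq_transpose_of_trivial, transpose_sub, transpose_smul, transpose_one,
        transpose_mul, transpose_transpose]
    · rw [star_trivial, hform]
      linarith [hle y]
  have h := hpsd.dotProduct_mulVec_zero_iff y
  rw [star_trivial, hform, sub_mulVec, smul_mulVec, one_mulVec] at h
  constructor
  · intro h1
    have h2 := h.mp (by linarith)
    exact (sub_eq_zero.mp h2).symm
  · intro h1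
    have h2 := h.mpr (by rw [h1, sub_self])
    linarith

/-- the deterministic statement -/
theorem stable_of_cyclic (O : Matrix.orthogonalGroup (ι ⊕ κ) ℝ) (k0 : κ)
    (hcyc : ∀ E : Submodule ℝ (ι ⊕ κ → ℝ), Pi.single (Sum.inr k0) 1 ∈ E →
      (∀ x ∈ E, O.1 *ᵥ x ∈ E) → E = ⊤) : Function.Injective (sylv (blk O) (blk O)) := by
  rw [← LinearMap.ker_eq_bot, LinearMap.ker_eq_bot']
  intro Q hQ0
  by_contra hQ
  set M := blk O with hM
  have hQM : Mᵀ * Q * M = Q := by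
    have : Q - Mᵀ * Q * M = 0 := hQ0
    exact (sub_eq_zero.mp this).symm
  obtain ⟨l, hl, hle, y0, hy0, hy0e⟩ := max_form Q hQ
  -- the matrix preserves lengths
  have hO : O.1ᵀ * O.1 = 1 := by
    have := Matrix.mem_unitaryGroup_iff'.mp O.2
    simpa [star_eq_conjTranspose, conjTranspose_eq_transpose_of_trivial] using this
  have hOdot : ∀ v w : ι ⊕ κ → ℝ, (O.1 *ᵥ v) ⬝ᵥ (O.1 *ᵥ w) = v ⬝ᵥ w := by
    intro v w
    rw [dotProduct_mulVec, vecMul_mulVec, hO, vecMul_one]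
  set D : Matrix κ ι ℝ := O.1.toBlocks₂₁ with hD
  -- action on vectors supported on the first block
  have hact : ∀ y : ι → ℝ, O.1 *ᵥ (Sum.elim y 0) = Sum.elim (M *ᵥ y) (D *ᵥ y) := by
    intro y
    conv_lhs => rw [← fromBlocks_toBlocks O.1]
    rw [fromBlocks_mulVec]
    simp only [Sum.elim_comp_inl, Sum.elim_comp_inr, mulVec_zero, add_zero]
    rfl
  have hlen : ∀ y : ι → ℝ, (M *ᵥ y) ⬝ᵥ (M *ᵥ y) + (D *ᵥ y) ⬝ᵥ (D *ᵥ y) = y ⬝ᵥ y := by
    intro y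
    have h := hOdot (Sum.elim y 0) (Sum.elim y 0)
    rw [hact] at h
    simpa [dotProduct, Fintype.sum_sum_type] using h
  have hcon : ∀ y : ι → ℝ, (M *ᵥ y) ⬝ᵥ (M *ᵥ y) ≤ y ⬝ᵥ y := fun y => by
    have := hlen y
    have := dot_nonneg (D *ᵥ y)
    linarith
  -- the eigenspace
  let E : Submodule ℝ (ι → ℝ) :=
    { carrier := {y | (Qᵀ * Q) *ᵥ y = l • y}
      add_mem' := by
        intro a b ha hb
        simp only [Set.mem_setOf_eq] at *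
        rw [mulVec_add, ha, hb, smul_add]
      zero_mem' := by simp
      smul_mem' := by
        intro c a ha
        simp only [Set.mem_setOf_eq] at *
        rw [mulVec_smul, ha, smul_comm] }
  have hEm : ∀ y, y ∈ E ↔ (Q *ᵥ y) ⬝ᵥ (Q *ᵥ y) = l * (y ⬝ᵥ y) := fun y => (mem_iff Q l hle y).symm
  have hstep : ∀ y ∈ E, M *ᵥ y ∈ E ∧ D *ᵥ y = 0 := by
    intro y hy
    by_cases hy00 : y = 0
    · subst hy00
      simp
    have hyp := dot_pos hy00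
    have hye := (hEm y).mp hy
    have h1 : (Q *ᵥ y) ⬝ᵥ (Q *ᵥ y) = (M *ᵥ (Q *ᵥ y)) ⬝ᵥ (Q *ᵥ (M *ᵥ y)) := by
      have : Q *ᵥ y = Mᵀ *ᵥ (Q *ᵥ (M *ᵥ y)) := by
        rw [mulVec_mulVec, mulVec_mulVec, hQM]
      calc (Q *ᵥ y) ⬝ᵥ (Q *ᵥ y) = (Q *ᵥ y) ⬝ᵥ (Mᵀ *ᵥ (Q *ᵥ (M *ᵥ y))) := by rw [← this]
        _ = (M *ᵥ (Q *ᵥ y)) ⬝ᵥ (Q *ᵥ (M *ᵥ y)) := by
            rw [dotProduct_mulVec, vecMul_transpose]
    have h2 := cs (M *ᵥ (Q *ᵥ y)) (Q *ᵥ (M *ᵥ y))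
    rw [← h1, hye] at h2
    have h3 := hcon (Q *ᵥ y)
    rw [hye] at h3
    have h4 := hle (M *ᵥ y)
    have h5 := hcon y
    have h6 := dot_nonneg (Q *ᵥ (M *ᵥ y))
    set a := y ⬝ᵥ y
    set b := (Q *ᵥ (M *ᵥ y)) ⬝ᵥ (Q *ᵥ (M *ᵥ y))
    set c := (M *ᵥ y) ⬝ᵥ (M *ᵥ y)
    have hla : 0 < l * a := by positivity
    have h7 : (l * a) ^ 2 ≤ (l * a) * b := h2.trans (mul_le_mul_of_nonneg_right h3 h6)
    have h8 : l * a ≤ b := by
      rw [sq] at h7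
      exact le_of_mul_le_mul_left h7 hla
    have h9 : l * c ≤ l * a := mul_le_mul_of_nonneg_left h5 hl.le
    have h10 : c = a := by
      have : l * c = l * a := by linarith
      exact mul_left_cancel₀ hl.ne' this
    constructor
    · rw [hEm]
      change b = l * c
      linarith
    · have h11 := hlen y
      have h12 : (D *ᵥ y) ⬝ᵥ (D *ᵥ y) = 0 := by linarith
      exact dotProduct_self_eq_zero.mp h12
  -- the lifted space
  let L : (ι → ℝ) →ₗ[ℝ] (ι ⊕ κ → ℝ) :=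
    { toFun := fun y => Sum.elim y 0
      map_add' := by
        intro a b
        ext x
        cases x <;> simp
      map_smul' := by
        intro c a
        ext x
        cases x <;> simp }
  let F : Submodule ℝ (ι ⊕ κ → ℝ) := E.map L
  let T : (ι ⊕ κ → ℝ) →ₗ[ℝ] (ι ⊕ κ → ℝ) := Matrix.toLin' O.1
  have hT : ∀ v, T v = O.1 *ᵥ v := fun v => Matrix.toLin'_apply _ _
  have hTinj : Function.Injective T := by
    intro v w hvw
    rw [hT, hT] at hvw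
    have := congrArg (fun z => O.1ᵀ *ᵥ z) hvw
    simpa [mulVec_mulVec, hO] using this
  have hTF : F.map T ≤ F := by
    rintro _ ⟨_, ⟨y, hy, rfl⟩, rfl⟩
    obtain ⟨h1, h2⟩ := hstep y hy
    refine ⟨M *ᵥ y, h1, ?_⟩
    rw [hT]
    change Sum.elim (M *ᵥ y) 0 = O.1 *ᵥ (Sum.elim y 0)
    rw [hact, h2]
  have hTF2 : F.map T = F := by
    refine Submodule.eq_of_le_of_finrank_eq hTF ?_
    exact (Submodule.equivMapOfInjective T hTinj F).finrank_eq.symm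
  let G : Submodule ℝ (ι ⊕ κ → ℝ) :=
    { carrier := {w | ∀ v ∈ F, w ⬝ᵥ v = 0}
      add_mem' := by
        intro a b ha hb v hv
        rw [add_dotProduct, ha v hv, hb v hv, add_zero]
      zero_mem' := by
        intro v _
        exact zero_dotProduct v
      smul_mem' := by
        intro c a ha v hv
        rw [smul_dotProduct, ha v hv, smul_zero] }
  have hG : G = ⊤ := by
    refine hcyc G ?_ ?_
    · rintro _ ⟨y, -, rfl⟩
      rw [single_dotProduct]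
      change 1 * (Sum.elim y 0 : ι ⊕ κ → ℝ) (Sum.inr k0) = 0
      simp
    · intro w hw v hv
      rw [← hTF2] at hv
      obtain ⟨v', hv', rfl⟩ := hv
      rw [hT, hOdot]
      exact hw v' hv'
  have hy0E : y0 ∈ E := (hEm y0).mpr hy0e
  have h1 : (L y0) ∈ G := hG ▸ Submodule.mem_top
  have h2 := h1 (L y0) ⟨y0, hy0E, rfl⟩
  have h3 : (L y0) ⬝ᵥ (L y0) = y0 ⬝ᵥ y0 := by
    change (Sum.elim y0 0 : ι ⊕ κ → ℝ) ⬝ᵥ (Sum.elim y0 0 : ι ⊕ κ → ℝ) = y0 ⬝ᵥ y0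
    simp [dotProduct, Fintype.sum_sum_type]
  rw [h3] at h2
  exact absurd h2 (dot_pos hy0).ne'

theorem stn (hCYC : T_CYC) : T_STN := by
  intro ι κ _ _ _ _ _ μ _ _
  obtain ⟨k0⟩ := ‹Nonempty κ›
  filter_upwards [hCYC (ι ⊕ κ) (Sum.inr k0) μ] with O hO
  exact stable_of_cyclic O k0 hO

end Pool.Agent.H80.TO
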