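import Pool.Agent.H84.TO.TargetsT

open MeasureTheory Filter Topology

namespace Pool.Agent.H80.TO
open Pool.Agent.H84.TO

/-- even part of the binomial series -/
theorem even_series (k : ℕ) (x : ℝ) (hx : |x| < 1) :
    HasSum (fun j : ℕ => ((2 * j + k).choose k : ℝ) * x ^ (2 * j))
      ((1 / (1 - x) ^ (k + 1) + 1 / (1 + x) ^ (k + 1)) / 2) := by
  have h1 := hasSum_choose_mul_geometric_of_norm_lt_one (𝕜 := ℝ) k (r := x)
    (by simpa [Real.norm_eq_abs] using hx)
  have h2 := hasSum_choose_mul_geometric_of_norm_lt_one (𝕜 := ℝ) k (r := -x)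
    (by simpa [Real.norm_eq_abs] using hx)
  rw [sub_neg_eq_add] at h2
  have h3 := (h1.add h2).div_const 2
  have hinj : Function.Injective (fun j : ℕ => 2 * j) := by
    intro a b hab
    simp only at hab
    omega
  have h4 := (hinj.hasSum_iff (f := fun n : ℕ =>
      (((n + k).choose k : ℝ) * x ^ n + ((n + k).choose k : ℝ) * (-x) ^ n) / 2) (a := _) (by
    intro n hn
    have hodd : Odd n := by
      rw [← Nat.not_even_iff_odd]
      intro he
      obtain ⟨r, hr⟩ := he
      exact hn ⟨r, by simp only; omega⟩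
    rw [hodd.neg_pow]
    ring)).mpr h3
  convert h4 using 2 with j
  simp only [Function.comp_apply]
  rw [(even_two_mul j).neg_pow]
  ring

theorem sum (hWG : T_WG) : T_SUM := by
  intro ℓ hℓ y z
  obtain ⟨k, rfl⟩ : ∃ k, ℓ = k + 1 := ⟨ℓ - 1, by omega⟩
  have hcy : 0 < Real.cosh (y / 2) := Real.cosh_pos _
  have hcz : 0 < Real.cosh (z / 2) := Real.cosh_pos _
  set x : ℝ := Real.tanh (y / 2) * Real.tanh (z / 2) with hxdef
  have hx : |x| < 1 := by
    rw [hxdef, abs_mul]
    exact mul_lt_one_of_nonneg_of_lt_one_left (abs_nonneg _) (Real.abs_tanh_lt_one _)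
      (Real.abs_tanh_lt_one _).le
  have hs := even_series k x hx
  have hG : 0 < Real.Gamma (((k + 1 : ℕ) : ℝ) / 2) := Real.Gamma_pos_of_pos (by positivity)
  have hkap : 0 < kap (k + 1) := by
    unfold kap
    positivity
  have hwg : ∀ j : ℕ, wg (k + 1) j = (k.factorial : ℝ) * ((2 * j + k).choose k : ℝ) := by
    intro j
    rw [(hWG (k + 1) hℓ j).1, Nat.add_sub_cancel, Nat.ascFactorial_eq_factorial_mul_choose]
    push_cast
    ring
  have hm := hs.mul_left (kap (k + 1) * k.factorial / 2 *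
    ((Real.cosh (y / 2) * Real.cosh (z / 2)) ^ (k + 1))⁻¹)
  have ef : (fun j : ℕ => uj (k + 1) j y * uj (k + 1) j z) = fun i : ℕ =>
      kap (k + 1) * k.factorial / 2 * ((Real.cosh (y / 2) * Real.cosh (z / 2)) ^ (k + 1))⁻¹ *
        (((2 * i + k).choose k : ℝ) * x ^ (2 * i)) := by
    funext j
    have hw0 : 0 ≤ kap (k + 1) * wg (k + 1) j / 2 := by
      rw [hwg]
      positivity
    have e1 : uj (k + 1) j y * uj (k + 1) j z =
        (Real.sqrt (kap (k + 1) * wg (k + 1) j / 2) * Real.sqrt (kap (k + 1) * wg (k + 1) j / 2))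
        * x ^ (2 * j) * ((Real.cosh (y / 2) * Real.cosh (z / 2)) ^ (k + 1))⁻¹ := by
      unfold uj
      rw [hxdef, mul_pow (Real.tanh _), mul_pow (Real.cosh _), mul_inv]
      ring
    rw [e1, Real.mul_self_sqrt hw0, hwg]
    ring
  have ev : (kk (k + 1) (y - z) + kk (k + 1) (y + z)) / 2 =
      kap (k + 1) * k.factorial / 2 * ((Real.cosh (y / 2) * Real.cosh (z / 2)) ^ (k + 1))⁻¹ *
      ((1 / (1 - x) ^ (k + 1) + 1 / (1 + x) ^ (k + 1)) / 2) := by
    have hT : ∀ w : ℝ, Real.tanh w = Real.sinh w / Real.cosh w := Real.tanh_eq_sinh_div_cosh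
    have e1 : Real.cosh ((y - z) / 2) = (1 - x) * (Real.cosh (y / 2) * Real.cosh (z / 2)) := by
      rw [hxdef, hT, hT, sub_div, Real.cosh_sub]
      field_simp
    have e2 : Real.cosh ((y + z) / 2) = (1 + x) * (Real.cosh (y / 2) * Real.cosh (z / 2)) := by
      rw [hxdef, hT, hT, add_div, Real.cosh_add]
      field_simp
    have h1x : 0 < 1 - x := by linarith [(abs_lt.mp hx).2]
    have h2x : 0 < 1 + x := by linarith [(abs_lt.mp hx).1]
    have hGk : Real.Gamma ((k + 1 : ℕ) : ℝ) = k.factorial := by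
      push_cast
      exact Real.Gamma_nat_eq_factorial k
    have h2p : (2 : ℝ) ^ (1 - ((k + 1 : ℕ) : ℝ)) = 1 / 2 ^ k := by
      have : (1 - ((k + 1 : ℕ) : ℝ)) = -(k : ℝ) := by push_cast; ring
      rw [this, Real.rpow_neg (by norm_num), Real.rpow_natCast, one_div]
    unfold kk kap
    rw [e1, e2, hGk, h2p]
    have hc : 0 < Real.cosh (y / 2) * Real.cosh (z / 2) := mul_pos hcy hcz
    generalize Real.cosh (y / 2) * Real.cosh (z / 2) = c at hc
    generalize 1 - x = a at h1x
    generalize 1 + x = b at h2x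
    generalize Real.Gamma (((k + 1 : ℕ) : ℝ) / 2) = g at hG
    have ha' : a ^ (k + 1) ≠ 0 := by positivity
    have hb' : b ^ (k + 1) ≠ 0 := by positivity
    have hc' : c ^ (k + 1) ≠ 0 := by positivity
    simp only [mul_pow, mul_inv, pow_succ (2 : ℝ) k]
    generalize a ^ (k + 1) = A at ha'
    generalize b ^ (k + 1) = B at hb'
    generalize c ^ (k + 1) = D at hc'
    field_simp
  rw [ef, ev]
  exact hm

end Pool.Agent.H80.TO
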