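import Pool.Agent.H80.TO.BIN

/-!
Transport of Haar measure along an equivalence of the index types.
-/

open MeasureTheory Matrix Polynomial Filter Topology
open scoped ENNReal

namespace Pool.Agent.H80.TO
open Pool.Agent.H84.TO

section re

variable {m n : Type} [Fintype m] [DecidableEq m] [Fintype n] [DecidableEq n]

theorem reindex_mem (E : m ≃ n) (O : Matrix m m ℝ) (hO : O ∈ Matrix.orthogonalGroup m ℝ) :
    Matrix.reindexAlgEquiv ℝ ℝ E O ∈ Matrix.orthogonalGroup n ℝ := by
  rw [Matrix.mem_unitaryGroup_iff] at hO ⊢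
  have h : star (Matrix.reindexAlgEquiv ℝ ℝ E O) = Matrix.reindexAlgEquiv ℝ ℝ E (star O) := by
    ext i j
    rfl
  rw [h, ← map_mul, hO, map_one]

/-- reindexing of orthogonal matrices -/
noncomputable def reO (E : m ≃ n) : Matrix.orthogonalGroup m ℝ →* Matrix.orthogonalGroup n ℝ where
  toFun O := ⟨Matrix.reindexAlgEquiv ℝ ℝ E O.1, reindex_mem E O.1 O.2⟩
  map_one' := by
    apply Subtype.ext
    exact map_one (Matrix.reindexAlgEquiv ℝ ℝ E)
  map_mul' A B := by
    apply Subtype.ext
    exact map_mul (Matrix.reindexAlgEquiv ℝ ℝ E) A.1 B.1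

theorem reO_surj (E : m ≃ n) : Function.Surjective (reO E) := by
  intro O
  refine ⟨reO E.symm O, Subtype.ext ?_⟩
  ext i j
  change O.1 (E (E.symm i)) (E (E.symm j)) = O.1 i j
  rw [Equiv.apply_symm_apply, Equiv.apply_symm_apply]

theorem reO_continuous (E : m ≃ n) : Continuous (reO E) := by
  refine Continuous.subtype_mk ?_ _
  refine continuous_matrix fun i j => ?_
  exact (continuous_subtype_val).matrix_elem (E.symm i) (E.symm j)

end re

variable {ι κ : Type} [Fintype ι] [DecidableEq ι] [Fintype κ] [DecidableEq κ]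

theorem blk_continuous : Continuous (blk : Matrix.orthogonalGroup (ι ⊕ κ) ℝ → Matrix ι ι ℝ) := by
  refine continuous_matrix fun i j => ?_
  exact (continuous_subtype_val).matrix_elem (Sum.inl i) (Sum.inl j)

theorem blk_measurable : Measurable (blk : Matrix.orthogonalGroup (ι ⊕ κ) ℝ → Matrix ι ι ℝ) :=
  blk_continuous.measurable

theorem blk_le (O : Matrix.orthogonalGroup (ι ⊕ κ) ℝ) (i j : ι) : |blk O i j| ≤ 1 :=
  entry_norm_bound_of_unitary O.2 (Sum.inl i) (Sum.inl j)

theorem trf : T_TRF := by
  intro N ι κ _ _ _ _ hcard μ _ _ ν _ _ φ hφ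
  let e : ι ≃ Fin N := Fintype.equivFinOfCardEq hcard
  let f : Matrix.orthogonalGroup (ι ⊕ κ) ℝ →* Matrix.orthogonalGroup (Fin N ⊕ κ) ℝ :=
    reO (Equiv.sumCongr e (Equiv.refl κ))
  have hfm : Measurable f := (reO_continuous _).measurable
  have hinv : (μ.map f).IsMulLeftInvariant :=
    isMulLeftInvariant_map f.toMulHom hfm (reO_surj _)
  have hprob : IsProbabilityMeasure (μ.map f) := Measure.isProbabilityMeasure_map hfm.aemeasurable
  have hν : μ.map f = ν := (bin_gen (μ.map f) ν).1
  have hchar : ∀ O, (blk (f O)).charpoly = (blk O).charpoly := by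
    intro O
    have h1 : blk (f O) = Matrix.reindex e e (blk O) := by
      ext i j
      rfl
    rw [h1, Matrix.charpoly_reindex]
  have hmeas : Measurable fun O : Matrix.orthogonalGroup (Fin N ⊕ κ) ℝ => φ (blk O).charpoly :=
    (hφ.meas N).comp blk_measurable
  obtain ⟨C, hC⟩ := hφ.bdd N 1
  constructor
  · have h2 : Integrable (fun O => φ (blk (f O)).charpoly) μ := by
      refine Integrable.of_bound (hmeas.comp hfm).aestronglyMeasurable C
        (Eventually.of_forall fun O => ?_)
      exact hC _ fun i j => blk_le _ i j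
    refine h2.congr (Eventually.of_forall fun O => ?_)
    simp only [hchar]
  · rw [← hν, integral_map hfm.aemeasurable hmeas.aestronglyMeasurable]
    refine integral_congr_ae (Eventually.of_forall fun O => ?_)
    simp only [hchar]

end Pool.Agent.H80.TO
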