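import Pool.Agent.H84.TO.TargetsR
import Pool.Agent.H80.TO.TRF

/-!
Symmetries of the law of the 2x2 truncation.
-/

open MeasureTheory Matrix Polynomial Filter Topology
open scoped ENNReal

namespace Pool.Agent.H80.TO
open Pool.Agent.H84.TO

theorem hh_neg (τ δ : ℝ) : ∀ r : ℕ, hh (-τ) δ r = (-1) ^ r * hh τ δ r ∧
    hh (-τ) δ (r + 1) = (-1) ^ (r + 1) * hh τ δ (r + 1) := by
  intro r
  induction r with
  | zero => simp [hh]
  | succ r ih =>
    refine ⟨ih.2, ?_⟩
    change -τ * hh (-τ) δ (r + 1) - δ * hh (-τ) δ r =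
      (-1) ^ (r + 1 + 1) * (τ * hh τ δ (r + 1) - δ * hh τ δ r)
    rw [ih.1, ih.2]
    ring

theorem sj_neg (j k : ℕ) (h : j % 2 = k % 2) (B : Matrix (Fin 2) (Fin 2) ℝ) :
    sj j k (-B) = - sj j k B := by
  have hdet : (-B).det = B.det := by
    rw [Matrix.det_neg]
    simp
  have htr : (-B).trace = - B.trace := Matrix.trace_neg B
  unfold sj
  rw [hdet, htr]
  split_ifs with h1 h2
  · have hodd : Odd (k - j - 1) := by
      rw [Nat.odd_iff]
      omega
    rw [(hh_neg _ _ _).1, hodd.neg_one_pow]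
    ring
  · have hodd : Odd (j - k - 1) := by
      rw [Nat.odd_iff]
      omega
    rw [(hh_neg _ _ _).1, hodd.neg_one_pow]
    ring
  · simp

variable {ℓ : ℕ}

/-- left multiplication of the first block -/
noncomputable def gO (ℓ : ℕ) (g : Matrix (Fin 2) (Fin 2) ℝ) (hg : gᵀ * g = 1) :
    Matrix.orthogonalGroup (Fin 2 ⊕ Fin ℓ) ℝ :=
  ⟨fromBlocks g 0 0 1, by
    rw [Matrix.mem_unitaryGroup_iff']
    change (fromBlocks g 0 0 1)ᵀ * _ = 1
    rw [fromBlocks_transpose, fromBlocks_multiply]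
    simp [hg, fromBlocks_one]⟩

theorem blk_gO (g : Matrix (Fin 2) (Fin 2) ℝ) (hg : gᵀ * g = 1)
    (O : Matrix.orthogonalGroup (Fin 2 ⊕ Fin ℓ) ℝ) : blk (gO ℓ g hg * O) = g * blk O := by
  unfold blk gO
  change (fromBlocks g 0 0 1 * O.1).toBlocks₁₁ = g * O.1.toBlocks₁₁
  conv_lhs => rw [← fromBlocks_toBlocks O.1]
  rw [fromBlocks_multiply, toBlocks_fromBlocks₁₁]
  simp

theorem om2_map (μ : Measure (Matrix.orthogonalGroup (Fin 2 ⊕ Fin ℓ) ℝ))
    [μ.IsMulLeftInvariant] (g : Matrix (Fin 2) (Fin 2) ℝ) (hg : gᵀ * g = 1) :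
    (om2 μ).map (fun B => g * B) = om2 μ := by
  have hgm : Measurable (fun B : Matrix (Fin 2) (Fin 2) ℝ => g * B) :=
    (continuous_const.matrix_mul continuous_id).measurable
  unfold om2
  rw [Measure.map_map hgm blk_measurable]
  have h1 : (fun B => g * B) ∘ (blk : Matrix.orthogonalGroup (Fin 2 ⊕ Fin ℓ) ℝ → _) =
      blk ∘ (fun O => gO ℓ g hg * O) := by
    funext O
    exact (blk_gO g hg O).symm
  rw [h1, ← Measure.map_map blk_measurable (measurable_const_mul _), map_mul_left_eq_self]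

theorem sym : T_SYM := by
  intro ℓ μ _ _
  have hprob : IsProbabilityMeasure (om2 μ) :=
    Measure.isProbabilityMeasure_map blk_measurable.aemeasurable
  refine ⟨hprob, ?_, fun g hg => om2_map μ g hg, fun j k hjk => ?_⟩
  · have hmeas : MeasurableSet {B : Matrix (Fin 2) (Fin 2) ℝ | ∀ i j, |B i j| ≤ 1} := by
      have : {B : Matrix (Fin 2) (Fin 2) ℝ | ∀ i j, |B i j| ≤ 1} =
          ⋂ i, ⋂ j, {B : Matrix (Fin 2) (Fin 2) ℝ | |B i j| ≤ 1} := by
        ext B
        simp
      rw [this]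
      refine MeasurableSet.iInter fun i => MeasurableSet.iInter fun j => ?_
      have hc : Continuous fun B : Matrix (Fin 2) (Fin 2) ℝ => |B i j| :=
        (continuous_id.matrix_elem i j).abs
      exact (isClosed_le hc continuous_const).measurableSet
    unfold om2
    rw [ae_map_iff blk_measurable.aemeasurable hmeas]
    exact Eventually.of_forall fun O i j => blk_le O i j
  · have hneg : (om2 μ).map (fun B => -B) = om2 μ := by
      have := om2_map μ (-1 : Matrix (Fin 2) (Fin 2) ℝ) (by simp)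
      simpa using this
    have hemb : MeasurableEmbedding (fun B : Matrix (Fin 2) (Fin 2) ℝ => -B) :=
      (Homeomorph.neg (Matrix (Fin 2) (Fin 2) ℝ)).measurableEmbedding
    have key : ∀ f : Matrix (Fin 2) (Fin 2) ℝ → ℝ, (∀ B, f (-B) = - f B) →
        ∫ B, f B ∂(om2 μ) = 0 := by
      intro f hf
      have h1 : ∫ B, f B ∂(om2 μ) = ∫ B, f (-B) ∂(om2 μ) := by
        conv_lhs => rw [← hneg]
        exact hemb.integral_map f
      simp_rw [hf] at h1
      rw [integral_neg] at h1
      linarith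
    refine ⟨key _ (sj_neg j k hjk), ?_⟩
    have hS : MeasurableSet {B : Matrix (Fin 2) (Fin 2) ℝ | B.trace ^ 2 - 4 * B.det < 0} := by
      have hc : Continuous fun B : Matrix (Fin 2) (Fin 2) ℝ => B.trace ^ 2 - 4 * B.det :=
        ((continuous_id.matrix_trace).pow 2).sub (continuous_const.mul continuous_id.matrix_det)
      exact (isOpen_lt hc continuous_const).measurableSet
    rw [← integral_indicator hS]
    refine key _ fun B => ?_
    have hdet : (-B).det = B.det := by
      rw [Matrix.det_neg]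
      simp
    have htr : (-B).trace = - B.trace := Matrix.trace_neg B
    have hiff : (-B) ∈ {B : Matrix (Fin 2) (Fin 2) ℝ | B.trace ^ 2 - 4 * B.det < 0} ↔
        B ∈ {B : Matrix (Fin 2) (Fin 2) ℝ | B.trace ^ 2 - 4 * B.det < 0} := by
      simp only [Set.mem_setOf_eq]
      rw [hdet, htr, neg_sq]
    by_cases h : B ∈ {B : Matrix (Fin 2) (Fin 2) ℝ | B.trace ^ 2 - 4 * B.det < 0}
    · rw [Set.indicator_of_mem h, Set.indicator_of_mem (hiff.mpr h), sj_neg j k hjk]
    · rw [Set.indicator_of_notMem h, Set.indicator_of_notMem (fun h' => h (hiff.mp h')), neg_zero]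

end Pool.Agent.H80.TO
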