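import Pool.Agent.H84.TO.TargetsT

open MeasureTheory Filter Topology

namespace Pool.Agent.H80.TO
open Pool.Agent.H84.TO

/-- the tail of a two sided exponential -/
theorem exp_tail (c : ℝ) (hc : 0 < c) (L : ℝ) (hL : 0 ≤ L) :
    IntegrableOn (fun y : ℝ => Real.exp (-c * |y|)) {y : ℝ | L < |y|} ∧
    ∫ y in {y : ℝ | L < |y|}, Real.exp (-c * |y|) = 2 / c * Real.exp (-c * L) := by
  have hmeas : MeasurableSet {y : ℝ | L < |y|} :=
    measurableSet_lt measurable_const measurable_abs
  have hIoi : IntegrableOn (fun x : ℝ => Real.exp (-c * x)) (Set.Ioi L) :=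
    integrableOn_exp_mul_Ioi (by linarith) L
  have hIoiv : ∫ x in Set.Ioi L, Real.exp (-c * x) = Real.exp (-c * L) / c := by
    rw [integral_exp_mul_Ioi (by linarith)]
    field_simp
  set f : ℝ → ℝ := (Set.Ioi L).indicator (fun x => Real.exp (-c * x)) with hf
  have hfabs : (fun y => f |y|) =
      {y : ℝ | L < |y|}.indicator (fun y : ℝ => Real.exp (-c * |y|)) := by
    funext y
    by_cases h : L < |y|
    · rw [hf, Set.indicator_of_mem (show |y| ∈ Set.Ioi L from h),
        Set.indicator_of_mem (show y ∈ {y : ℝ | L < |y|} from h)]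
    · rw [hf, Set.indicator_of_notMem (show |y| ∉ Set.Ioi L from h),
        Set.indicator_of_notMem (show y ∉ {y : ℝ | L < |y|} from h)]
  have hset : Set.Ioi (0 : ℝ) ∩ Set.Ioi L = Set.Ioi L := by
    rw [Set.Ioi_inter_Ioi, max_eq_right hL]
  have hv : ∫ y, f |y| = 2 / c * Real.exp (-c * L) := by
    rw [integral_comp_abs, hf, setIntegral_indicator measurableSet_Ioi, hset, hIoiv]
    ring
  refine ⟨?_, ?_⟩
  · rw [← integrable_indicator_iff hmeas, ← hfabs]
    by_contra hni
    rw [integral_undef hni] at hv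
    have : 0 < 2 / c * Real.exp (-c * L) := by positivity
    linarith
  · rw [← integral_indicator hmeas, ← hfabs, hv]

/-- the common part of the two cases -/
theorem core3 (n : ℕ) (hn : 1 ≤ n) (g : ℕ → ℝ → ℝ) (hg : ∀ j, Integrable (g j)) (K : ℝ → ℝ)
    (hK : Integrable K) (hK0 : ∀ y, 0 ≤ K y) (hK1 : ∫ y, K y = 1)
    (hle : ∀ y, ∑ j ∈ Finset.range n, g j y ≤ (K 0 + K (2 * y)) / 2) (D : ℝ)
    (htail : ∀ j, j < n → ∫ y in {y : ℝ | Real.log n < |y|}, g j y ≤ D / n) :
    ∑ j ∈ Finset.range n, ∫ y, g j y ≤ K 0 * Real.log n + (1 / 4 + D) := by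
  have hL : 0 ≤ Real.log n := Real.log_nonneg (by exact_mod_cast hn)
  set L := Real.log n with hLdef
  set A : Set ℝ := {y : ℝ | L < |y|} with hA
  have hmeas : MeasurableSet A := measurableSet_lt measurable_const measurable_abs
  have hAc : Aᶜ = Set.Icc (-L) L := by
    ext y
    simp only [hA, Set.mem_compl_iff, Set.mem_setOf_eq, not_lt, Set.mem_Icc, abs_le]
  have hsplit : ∀ j, ∫ y, g j y = (∫ y in Aᶜ, g j y) + ∫ y in A, g j y := by
    intro j
    rw [add_comm, integral_add_compl hmeas (hg j)]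
  have hK2 : Integrable (fun y => K (2 * y)) := hK.comp_mul_left' (by norm_num)
  have hK2v : ∫ y, K (2 * y) = 1 / 2 := by
    rw [Measure.integral_comp_mul_left, hK1]
    norm_num
  have h1 : ∑ j ∈ Finset.range n, ∫ y in Aᶜ, g j y ≤ K 0 * L + 1 / 4 := by
    rw [← integral_finset_sum _ (fun j _ => (hg j).integrableOn)]
    have hc : IntegrableOn (fun _ : ℝ => K 0) Aᶜ := by
      rw [hAc]
      exact continuousOn_const.integrableOn_Icc
    calc ∫ y in Aᶜ, ∑ j ∈ Finset.range n, g j y
        ≤ ∫ y in Aᶜ, (K 0 + K (2 * y)) / 2 := by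
          refine setIntegral_mono (integrable_finset_sum _ fun j _ => (hg j).integrableOn) ?_ hle
          exact (hc.add hK2.integrableOn).div_const 2
      _ = ((∫ y in Aᶜ, K 0) + ∫ y in Aᶜ, K (2 * y)) / 2 := by
          rw [integral_div, integral_add hc hK2.integrableOn]
      _ ≤ (2 * L * K 0 + 1 / 2) / 2 := by
          have e1 : ∫ y in Aᶜ, K 0 = 2 * L * K 0 := by
            rw [hAc, setIntegral_const]
            simp only [Measure.real, Real.volume_Icc, smul_eq_mul]
            rw [ENNReal.toReal_ofReal (by linarith)]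
            ring
          have e2 : ∫ y in Aᶜ, K (2 * y) ≤ 1 / 2 := by
            rw [← hK2v]
            exact setIntegral_le_integral hK2 (Eventually.of_forall fun y => hK0 _)
          linarith
      _ = K 0 * L + 1 / 4 := by ring
  have h2 : ∑ j ∈ Finset.range n, ∫ y in A, g j y ≤ D := by
    calc ∑ j ∈ Finset.range n, ∫ y in A, g j y ≤ ∑ j ∈ Finset.range n, D / n :=
          Finset.sum_le_sum fun j hj => htail j (Finset.mem_range.mp hj)
      _ = D := by
          rw [Finset.sum_const, Finset.card_range, nsmul_eq_mul]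
          have : (n : ℝ) ≠ 0 := by
            have : 0 < n := hn
            positivity
          field_simp
  rw [Finset.sum_congr rfl fun j _ => hsplit j, Finset.sum_add_distrib]
  linarith

theorem tr3 (hTR1 : T_TR1) (hSUM : T_SUM) (hGRM : T_GRM) (hUB : T_UB) (hK3 : T_K3) : T_TR3 := by
  intro ℓ hℓ m hm
  obtain ⟨hG1, hG2, -, -⟩ := hGRM ℓ hℓ
  obtain ⟨C, hC, hUi, hUb⟩ := hUB ℓ hℓ
  obtain ⟨hk1, hk3⟩ := hK3 ℓ (by omega)
  have hl : (0 : ℝ) < ℓ := by
    have : 0 < ℓ := by omega
    exact_mod_cast this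
  have hl2 : (2 : ℝ) ≤ ℓ := by exact_mod_cast hℓ
  -- facts on kk
  have hkk : kk ℓ = km ℓ 1 := by
    funext y
    rw [hk1]
  obtain ⟨k1c, k1i, k1n, k1b, k1e, k1v, -, -⟩ := hk3 1 le_rfl
  rw [← hkk] at k1c k1i k1n k1b k1e k1v
  have hu0 : ∀ j y, 0 ≤ uj ℓ j y := fun j y => (hUb j y).1
  have hpart : ∀ (n : ℕ) (y z : ℝ), ∑ j ∈ Finset.range n, uj ℓ j y * uj ℓ j z ≤
      (kk ℓ (y - z) + kk ℓ (y + z)) / 2 := by
    intro n y z
    exact sum_le_hasSum _ (fun j _ => mul_nonneg (hu0 j y) (hu0 j z)) (hSUM ℓ hℓ y z)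
  -- powers of n
  have hnexp : ∀ n : ℕ, 1 ≤ n → ∀ c : ℝ, Real.exp (-c * Real.log n) = (n : ℝ) ^ (-c) := by
    intro n hn c
    have : (0 : ℝ) < n := by
      have : 0 < n := hn
      exact_mod_cast this
    rw [Real.rpow_def_of_pos this]
    ring_nf
  obtain rfl | hm2 : m = 1 ∨ 2 ≤ m := by omega
  · refine ⟨1 / 4 + C ^ 2 * (2 / ℓ), fun n hn => ?_⟩
    have hnpos : (0 : ℝ) < n := by
      have : 0 < n := hn
      exact_mod_cast this
    have htr : ((SS ℓ n) ^ 1).trace = ∑ j ∈ Finset.range n, ∫ y, uj ℓ j y * uj ℓ j y := by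
      rw [pow_one, Matrix.trace, Finset.sum_range]
      refine Finset.sum_congr rfl fun j _ => ?_
      rw [(hG1 j j).2]
      rfl
    rw [htr]
    have hcore := core3 n hn (fun j y => uj ℓ j y * uj ℓ j y) (fun j => (hG1 j j).1) (kk ℓ)
      k1i k1n k1v (fun y => by
        have := hpart n y y
        rw [sub_self] at this
        rw [two_mul]
        exact this) (C ^ 2 * (2 / ℓ)) ?_
    · rw [hkk] at hcore
      exact hcore
    · intro j hj
      obtain ⟨ht1, ht2⟩ := exp_tail ℓ hl (Real.log n) (Real.log_nonneg (by exact_mod_cast hn))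
      have hj1 : (0 : ℝ) < (j : ℝ) + 1 := by positivity
      have hjn : (j : ℝ) + 1 ≤ n := by exact_mod_cast hj
      calc ∫ y in {y : ℝ | Real.log n < |y|}, uj ℓ j y * uj ℓ j y
          ≤ ∫ y in {y : ℝ | Real.log n < |y|},
            (C ^ 2 * ((j : ℝ) + 1) ^ ((ℓ : ℝ) - 1)) * Real.exp (-ℓ * |y|) := by
            refine setIntegral_mono (hG1 j j).1.integrableOn (ht1.const_mul _) fun y => ?_
            have hb := (hUb j y).2.2
            have hb0 := hu0 j y
            calc uj ℓ j y * uj ℓ j y ≤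
                (C * ((j : ℝ) + 1) ^ (((ℓ : ℝ) - 1) / 2) * Real.exp (-(ℓ : ℝ) * |y| / 2)) *
                (C * ((j : ℝ) + 1) ^ (((ℓ : ℝ) - 1) / 2) * Real.exp (-(ℓ : ℝ) * |y| / 2)) :=
                  mul_le_mul hb hb hb0 (hb0.trans hb)
              _ = (C ^ 2 * (((j : ℝ) + 1) ^ (((ℓ : ℝ) - 1) / 2) *
                    ((j : ℝ) + 1) ^ (((ℓ : ℝ) - 1) / 2))) *
                  (Real.exp (-(ℓ : ℝ) * |y| / 2) * Real.exp (-(ℓ : ℝ) * |y| / 2)) := by ring
              _ = _ := by
                  rw [← Real.rpow_add hj1, ← Real.exp_add]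
                  congr 3 <;> ring
        _ = (C ^ 2 * ((j : ℝ) + 1) ^ ((ℓ : ℝ) - 1)) * (2 / ℓ * (n : ℝ) ^ (-(ℓ : ℝ))) := by
            rw [integral_const_mul, ht2, hnexp n hn]
        _ ≤ (C ^ 2 * (n : ℝ) ^ ((ℓ : ℝ) - 1)) * (2 / ℓ * (n : ℝ) ^ (-(ℓ : ℝ))) := by
            gcongr
            linarith
        _ = C ^ 2 * (2 / ℓ) * ((n : ℝ) ^ ((ℓ : ℝ) - 1) * (n : ℝ) ^ (-(ℓ : ℝ))) := by ring
        _ = C ^ 2 * (2 / ℓ) / n := by
            rw [← Real.rpow_add hnpos]
            have : (ℓ : ℝ) - 1 + -(ℓ : ℝ) = -1 := by ring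
            rw [this, Real.rpow_neg_one]
            ring
  · obtain ⟨p, rfl⟩ : ∃ p, m = p + 1 := ⟨m - 1, by omega⟩
    have hp : 1 ≤ p := by omega
    obtain ⟨kpc, kpi, kpn, kpb, kpe, kpv, kpconv, -⟩ := hk3 p hp
    obtain ⟨kmc, kmi, kmn, kmb, kme, kmv, -, -⟩ := hk3 (p + 1) (by omega)
    refine ⟨1 / 4 + km ℓ p 0 * C ^ 2 * (4 / ℓ), fun n hn => ?_⟩
    have hnpos : (0 : ℝ) < n := by
      have : 0 < n := hn
      exact_mod_cast this
    refine (hTR1 ℓ hℓ p hp n).trans ?_
    rw [← Finset.sum_range (f := fun j => ∫ y, uj ℓ j y * ∫ z, km ℓ p (y - z) * uj ℓ j z)]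
    have huc : ∀ j, Continuous (uj ℓ j) := fun j => (hG2 j).1
    have hui : ∀ j, Integrable (uj ℓ j) := fun j => (hG2 j).2.1
    -- inner integrals
    have hin : ∀ j y, Integrable (fun z => km ℓ p (y - z) * uj ℓ j z) := by
      intro j y
      refine ((hui j).bdd_mul (c := km ℓ p 0)
        ((kpc.comp (continuous_const.sub continuous_id)).aestronglyMeasurable)
        (Eventually.of_forall fun z => ?_))
      rw [Real.norm_eq_abs, abs_of_nonneg (kpn _)]
      exact kpb _
    have hin0 : ∀ j y, 0 ≤ ∫ z, km ℓ p (y - z) * uj ℓ j z := fun j y =>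
      integral_nonneg fun z => mul_nonneg (kpn _) (hu0 j z)
    have hinb : ∀ j y, ∫ z, km ℓ p (y - z) * uj ℓ j z ≤ km ℓ p 0 * ∫ z, uj ℓ j z := by
      intro j y
      rw [← integral_const_mul]
      exact integral_mono (hin j y) ((hui j).const_mul _) fun z =>
        mul_le_mul_of_nonneg_right (kpb _) (hu0 j z)
    have hinm : ∀ j, AEStronglyMeasurable (fun y => ∫ z, km ℓ p (y - z) * uj ℓ j z) := by
      intro j
      have : Continuous (Function.uncurry fun y z : ℝ => km ℓ p (y - z) * uj ℓ j z) :=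
        (kpc.comp (continuous_fst.sub continuous_snd)).mul ((huc j).comp continuous_snd)
      exact (this.stronglyMeasurable.integral_prod_right).aestronglyMeasurable
    have hgi : ∀ j, Integrable (fun y => uj ℓ j y * ∫ z, km ℓ p (y - z) * uj ℓ j z) := by
      intro j
      refine (hui j).mul_bdd (c := km ℓ p 0 * ∫ z, uj ℓ j z) (hinm j)
        (Eventually.of_forall fun y => ?_)
      rw [Real.norm_eq_abs, abs_of_nonneg (hin0 j y)]
      exact hinb j y
    have hcore := core3 n hn (fun j y => uj ℓ j y * ∫ z, km ℓ p (y - z) * uj ℓ j z) hgi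
      (km ℓ (p + 1)) kmi kmn kmv ?_ (km ℓ p 0 * C ^ 2 * (4 / ℓ)) ?_
    · exact hcore
    · intro y
      have hi1 : Integrable (fun z => km ℓ p (y - z)) := kpi.comp_sub_left y
      have hA : Integrable (fun z => km ℓ p (y - z) * kk ℓ (y - z)) := by
        refine hi1.mul_bdd (c := kk ℓ 0)
          ((k1c.comp (continuous_const.sub continuous_id)).aestronglyMeasurable)
          (Eventually.of_forall fun z => ?_)
        rw [Real.norm_eq_abs, abs_of_nonneg (k1n _)]
        exact k1b _
      have hB : Integrable (fun z => km ℓ p (y - z) * kk ℓ (y + z)) := by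
        refine hi1.mul_bdd (c := kk ℓ 0)
          ((k1c.comp (continuous_const.add continuous_id)).aestronglyMeasurable)
          (Eventually.of_forall fun z => ?_)
        rw [Real.norm_eq_abs, abs_of_nonneg (k1n _)]
        exact k1b _
      have hAv : ∫ z, km ℓ p (y - z) * kk ℓ (y - z) = km ℓ (p + 1) 0 := by
        rw [integral_sub_left_eq_self (fun x => km ℓ p x * kk ℓ x) volume y, ← kpconv 0]
        refine integral_congr_ae (Eventually.of_forall fun z => ?_)
        simp only [zero_sub]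
        rw [k1e]
        ring
      have hBv : ∫ z, km ℓ p (y - z) * kk ℓ (y + z) = km ℓ (p + 1) (2 * y) := by
        rw [← kpconv (2 * y),
          ← integral_sub_left_eq_self (fun x => kk ℓ (2 * y - x) * km ℓ p x) volume y]
        refine integral_congr_ae (Eventually.of_forall fun z => ?_)
        simp only
        rw [show 2 * y - (y - z) = y + z by ring]
        ring
      calc ∑ j ∈ Finset.range n, uj ℓ j y * ∫ z, km ℓ p (y - z) * uj ℓ j z
          = ∫ z, ∑ j ∈ Finset.range n, uj ℓ j y * (km ℓ p (y - z) * uj ℓ j z) := by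
            rw [integral_finset_sum _ fun j _ => (hin j y).const_mul _]
            refine Finset.sum_congr rfl fun j _ => ?_
            rw [integral_const_mul]
        _ ≤ ∫ z, (km ℓ p (y - z) * kk ℓ (y - z) + km ℓ p (y - z) * kk ℓ (y + z)) / 2 := by
            refine integral_mono (integrable_finset_sum _ fun j _ => (hin j y).const_mul _)
              ((hA.add hB).div_const 2) fun z => ?_
            simp only
            have h := mul_le_mul_of_nonneg_left (hpart n y z) (kpn (y - z))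
            calc ∑ j ∈ Finset.range n, uj ℓ j y * (km ℓ p (y - z) * uj ℓ j z)
                = km ℓ p (y - z) * ∑ j ∈ Finset.range n, uj ℓ j y * uj ℓ j z := by
                  rw [Finset.mul_sum]
                  refine Finset.sum_congr rfl fun j _ => by ring
              _ ≤ _ := h
              _ = _ := by ring
        _ = (km ℓ (p + 1) 0 + km ℓ (p + 1) (2 * y)) / 2 := by
            rw [integral_div, integral_add hA hB, hAv, hBv]
    · intro j hj
      obtain ⟨ht1, ht2⟩ := exp_tail (ℓ / 2) (by positivity) (Real.log n)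
        (Real.log_nonneg (by exact_mod_cast hn))
      have hj1 : (0 : ℝ) < (j : ℝ) + 1 := by positivity
      have hjn : (j : ℝ) + 1 ≤ n := by exact_mod_cast hj
      have htail : ∫ y in {y : ℝ | Real.log n < |y|}, uj ℓ j y ≤
          (C * ((j : ℝ) + 1) ^ (((ℓ : ℝ) - 1) / 2)) * (4 / ℓ * (n : ℝ) ^ (-((ℓ : ℝ) / 2))) := by
        calc ∫ y in {y : ℝ | Real.log n < |y|}, uj ℓ j y ≤
            ∫ y in {y : ℝ | Real.log n < |y|},
            (C * ((j : ℝ) + 1) ^ (((ℓ : ℝ) - 1) / 2)) * Real.exp (-(ℓ / 2) * |y|) := by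
              refine setIntegral_mono (hui j).integrableOn (ht1.const_mul _) fun y => ?_
              refine ((hUb j y).2.2).trans (le_of_eq ?_)
              congr 2
              ring
          _ = _ := by
              rw [integral_const_mul, ht2, hnexp n hn]
              congr 2
              field_simp
              norm_num
      calc ∫ y in {y : ℝ | Real.log n < |y|}, uj ℓ j y * ∫ z, km ℓ p (y - z) * uj ℓ j z
          ≤ ∫ y in {y : ℝ | Real.log n < |y|}, uj ℓ j y * (km ℓ p 0 * ∫ z, uj ℓ j z) :=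
            setIntegral_mono (hgi j).integrableOn ((hui j).mul_const _).integrableOn fun y =>
              mul_le_mul_of_nonneg_left (hinb j y) (hu0 j y)
        _ = (∫ y in {y : ℝ | Real.log n < |y|}, uj ℓ j y) * (km ℓ p 0 * ∫ z, uj ℓ j z) := by
            rw [integral_mul_const]
        _ ≤ ((C * ((j : ℝ) + 1) ^ (((ℓ : ℝ) - 1) / 2)) *
              (4 / ℓ * (n : ℝ) ^ (-((ℓ : ℝ) / 2)))) * (km ℓ p 0 * (C / Real.sqrt (j + 1))) := by
            refine mul_le_mul htail (mul_le_mul_of_nonneg_left (hUi j) (kpn 0)) ?_ ?_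
            · exact mul_nonneg (kpn 0) (integral_nonneg fun z => hu0 j z)
            · positivity
        _ = km ℓ p 0 * C ^ 2 * (4 / ℓ) * (((j : ℝ) + 1) ^ (((ℓ : ℝ) - 1) / 2) /
              Real.sqrt (j + 1) * (n : ℝ) ^ (-((ℓ : ℝ) / 2))) := by ring
        _ ≤ km ℓ p 0 * C ^ 2 * (4 / ℓ) * ((n : ℝ) ^ (((ℓ : ℝ) - 2) / 2) *
              (n : ℝ) ^ (-((ℓ : ℝ) / 2))) := by
            have h0 := kpn 0
            have e : ((j : ℝ) + 1) ^ (((ℓ : ℝ) - 1) / 2) / Real.sqrt (j + 1) =
                ((j : ℝ) + 1) ^ (((ℓ : ℝ) - 2) / 2) := by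
              rw [Real.sqrt_eq_rpow, ← Real.rpow_sub hj1]
              congr 1
              ring
            rw [e]
            gcongr
        _ = km ℓ p 0 * C ^ 2 * (4 / ℓ) / n := by
            rw [← Real.rpow_add hnpos]
            have : ((ℓ : ℝ) - 2) / 2 + -((ℓ : ℝ) / 2) = -1 := by ring
            rw [this, Real.rpow_neg_one]
            ring

end Pool.Agent.H80.TO
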