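import Pool.Agent.H80.TO.TRF
import Pool.Agent.H84.TO.TargetsR

/-!
The normalised law of the 2x2 truncation.
-/

open MeasureTheory Matrix Polynomial Filter Topology
open scoped ENNReal

namespace Pool.Agent.H80.TO
open Pool.Agent.H84.TO

theorem int_pow_one_sub (s : ℝ) (hs : 0 ≤ s) :
    ∫⁻ r in Set.Ioo (0 : ℝ) 1, ENNReal.ofReal ((1 - r) ^ s) = ENNReal.ofReal (1 / (s + 1)) := by
  have hcont : Continuous fun r : ℝ => (1 - r) ^ s :=
    (continuous_const.sub continuous_id).rpow_const fun x => Or.inr hs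
  have hint : IntegrableOn (fun r : ℝ => (1 - r) ^ s) (Set.Ioo 0 1) :=
    (hcont.continuousOn.integrableOn_Icc (a := 0) (b := 1)).mono_set Set.Ioo_subset_Icc_self
  rw [← ofReal_integral_eq_lintegral_ofReal hint]
  · congr 1
    rw [← integral_Ioc_eq_integral_Ioo, ← intervalIntegral.integral_of_le zero_le_one,
      intervalIntegral.integral_comp_sub_left (fun x => x ^ s) 1, integral_rpow (Or.inl (by linarith))]
    simp [Real.zero_rpow (by linarith : s + 1 ≠ 0)]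
  · refine (ae_restrict_iff' measurableSet_Ioo).mpr (Eventually.of_forall fun r hr => ?_)
    exact Real.rpow_nonneg (by linarith [hr.2]) s

theorem bt_pos {x y : ℝ} (hx : 0 < x) (hy : 0 < y) : 0 < bt x y := by
  unfold bt
  have h1 := Real.Gamma_pos_of_pos hx
  have h2 := Real.Gamma_pos_of_pos hy
  have h3 := Real.Gamma_pos_of_pos (add_pos hx hy)
  positivity

theorem w2 (hW2A : T_W2A) (hW2B : T_W2B) (hBET : T_BET) : T_W2 := by
  intro ℓ hℓ μ _ _ f hf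
  have hl : (2 : ℝ) ≤ ℓ := by exact_mod_cast hℓ
  have hl0 : (0 : ℝ) < ℓ := by linarith
  obtain ⟨c, hc⟩ := hW2A ℓ hℓ μ
  have h1 := hc (fun _ => 1) measurable_const
  have h2 := hW2B ℓ hℓ (fun _ _ => 1) measurable_const
  simp only [lintegral_const, measure_univ, mul_one, one_mul] at h1 h2
  -- the double integral
  have hb := (hBET 0 (ℓ / 2) (by positivity)).2
  simp only [mul_zero, pow_zero, one_mul, Nat.cast_zero, zero_add] at hb
  have hnn : ∀ t ∈ Set.Ioo (-1 : ℝ) 1, 0 ≤ (1 - t ^ 2) ^ ((ℓ : ℝ) / 2 - 1) := by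
    intro t ht
    exact Real.rpow_nonneg (by nlinarith [ht.1, ht.2]) _
  have hBl : ∫⁻ t in Set.Ioo (-1 : ℝ) 1, ENNReal.ofReal ((1 - t ^ 2) ^ ((ℓ : ℝ) / 2 - 1)) =
      ENNReal.ofReal (bt (1 / 2) (ℓ / 2)) := by
    rw [← ofReal_integral_eq_lintegral_ofReal hb.1, hb.2]
    exact (ae_restrict_iff' measurableSet_Ioo).mpr (Eventually.of_forall hnn)
  have hdb : ∫⁻ r in Set.Ioo (0 : ℝ) 1, ∫⁻ t in Set.Ioo (-1 : ℝ) 1,
      ENNReal.ofReal ((1 - r) ^ ((ℓ : ℝ) / 2 - 1) * (1 - t ^ 2) ^ ((ℓ : ℝ) / 2 - 1)) =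
      ENNReal.ofReal (2 / ℓ) * ENNReal.ofReal (bt (1 / 2) (ℓ / 2)) := by
    have e1 : ∀ r ∈ Set.Ioo (0 : ℝ) 1, ∫⁻ t in Set.Ioo (-1 : ℝ) 1,
        ENNReal.ofReal ((1 - r) ^ ((ℓ : ℝ) / 2 - 1) * (1 - t ^ 2) ^ ((ℓ : ℝ) / 2 - 1)) =
        ENNReal.ofReal ((1 - r) ^ ((ℓ : ℝ) / 2 - 1)) * ENNReal.ofReal (bt (1 / 2) (ℓ / 2)) := by
      intro r hr
      have hr0 : 0 ≤ (1 - r) ^ ((ℓ : ℝ) / 2 - 1) := Real.rpow_nonneg (by linarith [hr.2]) _
      simp_rw [ENNReal.ofReal_mul hr0]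
      rw [lintegral_const_mul' _ _ ENNReal.ofReal_ne_top, hBl]
    rw [setLIntegral_congr_fun measurableSet_Ioo e1, lintegral_mul_const' _ _ ENNReal.ofReal_ne_top,
      int_pow_one_sub _ (by linarith)]
    congr 2
    rw [sub_add_cancel, one_div_div]
  rw [hdb] at h2
  have hp1 : 0 < bt (1 / 2) (((ℓ : ℝ) - 1) / 2) := bt_pos (by norm_num) (by linarith)
  have hp2 : 0 < bt (1 / 2) ((ℓ : ℝ) / 2) := bt_pos (by norm_num) (by linarith)
  have hI : ∫⁻ B in Bal, ENNReal.ofReal (dn ℓ B) = ENNReal.ofReal ((cW ℓ)⁻¹) := by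
    rw [h2, ← ENNReal.ofReal_mul (by positivity), ← ENNReal.ofReal_mul (by positivity)]
    congr 1
    unfold cW
    field_simp
  have hcW : 0 < cW ℓ := by
    unfold cW
    positivity
  have hceq : c = ENNReal.ofReal (cW ℓ) := by
    rw [hI] at h1
    have h3 := ENNReal.eq_inv_of_mul_eq_one_left h1.symm
    rw [h3, ← ENNReal.ofReal_inv_of_pos (inv_pos.mpr hcW), inv_inv]
  rw [← hceq, ← hc f hf]
  unfold om2
  exact lintegral_map hf blk_measurable

end Pool.Agent.H80.TO
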